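import Pool.Agent.H71.GW.Targets

/-!
# Module CB: bounds over the vectors of norm `2 s + 1`
-/

set_option autoImplicit false

open Finset
open scoped Classical

namespace Pool.Agent.H41.GW

open Pool.Agent.H71.GW

variable {J : Type} [Fintype J]

/-- the moves are additive -/
theorem mvs_sub (κ : J → ℕ) (EN ER : ℕ) (FN FR GN GR : ℕ → (J → ℕ) → ℤ) :
    mvs κ EN ER FN FR - mvs κ EN ER GN GR =
      mvs κ EN ER (fun e κ' => FN e κ' - GN e κ') (fun e κ' => FR e κ' - GR e κ') := by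
  unfold mvs
  rw [← Finset.sum_sub_distrib]
  refine Finset.sum_congr rfl fun j _ => ?_
  split_ifs
  · rw [Finset.sum_sub_distrib]
  · rw [Finset.sum_sub_distrib]

theorem sum_pred (E : ℕ) (F : ℕ → ℤ) :
    ∑ e ∈ Icc 1 (E - 1), F e = ∑ e ∈ Icc 1 E, if e < E then F e else 0 := by
  rw [← Finset.sum_filter]
  refine Finset.sum_congr ?_ fun _ _ => rfl
  ext e
  simp only [mem_Icc, mem_filter]
  omega

/-- adding moves with ranges shorter by one -/
theorem mvs_add_pred (κ : J → ℕ) (EN ER : ℕ) (FN FR GN GR : ℕ → (J → ℕ) → ℤ) :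
    mvs κ EN ER FN FR + mvs κ (EN - 1) (ER - 1) GN GR =
      mvs κ EN ER (fun e κ' => FN e κ' + if e < EN then GN e κ' else 0)
        (fun e κ' => FR e κ' + if e < ER then GR e κ' else 0) := by
  unfold mvs
  rw [← Finset.sum_add_distrib]
  refine Finset.sum_congr rfl fun j _ => ?_
  split_ifs
  · have h := sum_pred EN (fun e => GN e (κ + (Pi.single j (e + 1) : J → ℕ)))
    rw [h, ← Finset.sum_add_distrib]
  · have h := sum_pred ER (fun e => GR e (κ + (Pi.single j e : J → ℕ)))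
    rw [h, ← Finset.sum_add_distrib]

theorem psi_zero {n : ℕ} {κ u : J → ℕ} (h : ¬ κ ≤ u) : psi n κ u = 0 := by
  unfold psi
  rw [if_neg h]

theorem psi_zero_ge {n : ℕ} {κ u : J → ℕ} (h : ¬ κ ≤ u) (κ' : J → ℕ) (h' : κ ≤ κ') :
    ((psi n κ' u : ℕ) : ℤ) = 0 := by
  rw [psi_zero (fun h'' => h (le_trans h' h''))]
  rfl

/-- one coordinate of the number of additional units -/
theorem le_ex (κ u : J → ℕ) (j : J) (h : κ j ≠ 0) : u j - κ j ≤ ex κ u := by
  unfold ex
  have := Finset.single_le_sum (f := fun j => if κ j = 0 then u j - 1 else u j - κ j)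
    (fun i _ => Nat.zero_le _) (Finset.mem_univ j)
  simpa [h] using this

/-- the sup estimate at the last step -/
theorem sup_step (hpol : T_POL) (hpsi : T_PSI) (u : J → ℕ) (n s t : ℕ) (hw : wt u = n + t)
    (ht : t ≤ s) (g : List ℕ) (κ' : J → ℕ) (hn : wt κ' ≤ n) (v : ℕ) (hv : v ≤ ex κ' u) :
    (1 + v) * (ev g (t - ex κ' u) * psi n κ' u) ≤ supE s g * psi n κ' u := by
  by_cases h : t < ex κ' u
  · rw [hpsi.1 J κ' u n t hw hn h]
    simp
  · push Not at h
    rw [← mul_assoc]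
    refine Nat.mul_le_mul_right _ ?_
    refine le_trans ?_ (hpol.2.2.2.2 g s v (by omega))
    exact Nat.mul_le_mul_left _ (hpol.1 g _ _ (by omega))

theorem single_wt (hbas : T_BAS) (κ : J → ℕ) (j : J) (e : ℕ) :
    wt (κ + Pi.single j e) = wt κ + e := ((hbas J κ κ).2 j e).1

/-- the identity `(*)` -/
theorem star (hpol : T_POL) (hpsi : T_PSI) (u : J → ℕ) (s : ℕ) (hw : wt u = 2 * s + 1)
    (hs : 1 ≤ s) (g : List ℕ) (κ : J → ℕ) (hn : wt κ ≤ s + 2) :
    ev g s * psi (s + 2) κ u = (ev g (s - 1 - ex κ u) + ev (dd s g) (s - 1 - ex κ u)) *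
      psi (s + 2) κ u + ex κ u * (ev (dd s g) (s - 1 - ex κ u) * psi (s + 2) κ u) := by
  by_cases h : s - 1 < ex κ u
  · rw [hpsi.1 J κ u (s + 2) (s - 1) (by omega) hn h]
    simp
  · push Not at h
    have h2 := hpol.2.1 g s (s - 1 - ex κ u) (by omega)
    have h3 : s - (s - 1 - ex κ u) = ex κ u + 1 := by omega
    rw [h3] at h2
    rw [← h2]
    ring

variable (hpol : T_POL) (hbas : T_BAS) (htrn : T_TRN) (hpsi : T_PSI) (hslo : T_SLO)
  (hsup : T_SUP) (hzer : T_ZER)

/-- first part -/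
def P1 (u : J → ℕ) (s EW E0 k : ℕ) : Prop :=
  ∀ (w : ℕ) (g : List ℕ) (κ : J → ℕ), wt κ ≤ s + 2 →
      (((ev g (s - 1 - ex κ u) + ev (dd s g) (s - 1 - ex κ u)) * psi (s + 2) κ u : ℕ) : ℤ) ≤
        Up s (s + 2) EW E0 (fun κ' => (psi (s + 2) κ' u : ℤ)) k w g κ +
          HF s EW E0 (fun κ' => (psi (s + 1) κ' u : ℤ)) k w g κ

/-- second part -/
def P2 (u : J → ℕ) (s EW E0 k : ℕ) : Prop :=
  ∀ (w : ℕ) (g : List ℕ) (κ : J → ℕ), wt κ + 2 ≤ s + 2 →
      Low s (s + 2) E0 (fun κ' => (psi (s + 2) κ' u : ℤ))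
        (Up s (s + 2) EW E0 (fun κ' => (psi (s + 2) κ' u : ℤ)) k) w g κ ≤
        ((ev g (s - 1 - ex κ u) * psi (s + 2) κ u : ℕ) : ℤ) +
          HS s E0 (fun κ' => (psi (s + 1) κ' u : ℤ))
            (HF s EW E0 (fun κ' => (psi (s + 1) κ' u : ℤ)) k) w g κ

include hpol hbas htrn hpsi hsup hzer in
theorem p2_of_p1 (u : J → ℕ) (s EW E0 k : ℕ) (hw : wt u = 2 * s + 1) (hs : 1 ≤ s)
    (hE0 : 1 ≤ E0) (h1 : P1 u s EW E0 k) : P2 u s EW E0 k := by
  intro w g κ hκ
  by_cases hle : κ ≤ u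
  swap
  · have hz := hzer J (fun κ' => (psi (s + 2) κ' u : ℤ)) κ
      (fun κ' h' => psi_zero_ge hle κ' h') s (s + 2) 0 EW E0 k w 0 g
    have hz' := hzer J (fun κ' => (psi (s + 1) κ' u : ℤ)) κ
      (fun κ' h' => psi_zero_ge hle κ' h') s (s + 2) 0 EW E0 k w 0 g
    rw [hz.2.1, hz'.2.2.2.1, psi_zero hle]
    simp
  set b := s + 2 - wt κ with hb
  have hb2 : 2 ≤ b := by omega
  set EN := min E0 (b - 1) with hEN
  set ER := min E0 b with hER
  have hEN1 : 1 ≤ EN := by omega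
  have hER1 : 1 ≤ ER := by omega
  have hENb : EN + 1 ≤ b := by omega
  have hERb : ER ≤ b := by omega
  set Y := s - 1 - ex κ u with hY
  set V : ℕ := ev (dd s g) Y * psi (s + 2) κ u with hV
  set Ψ : (J → ℕ) → ℤ := fun κ' => (psi (s + 2) κ' u : ℤ) with hΨ
  set Ψ1 : (J → ℕ) → ℤ := fun κ' => (psi (s + 1) κ' u : ℤ) with hΨ1
  have hwu : wt u = (s + 2) + (s - 1) := by omega
  have hκ2 : wt κ ≤ s + 2 := by omega
  -- vanishing
  have hvU : ∀ κ' : J → ℕ, ¬ κ' ≤ u → ∀ w' g', Up s (s + 2) EW E0 Ψ k w' g' κ' = 0 := by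
    intro κ' hn w' g'
    exact (hzer J Ψ κ' (fun κ'' h' => psi_zero_ge hn κ'' h') s (s + 2) 0 EW E0 k w' 0 g').1
  have hvH : ∀ κ' : J → ℕ, ¬ κ' ≤ u → ∀ w' g', HF s EW E0 Ψ1 k w' g' κ' = 0 := by
    intro κ' hn w' g'
    exact (hzer J Ψ1 κ' (fun κ'' h' => psi_zero_ge hn κ'' h') s (s + 2) 0 EW E0 k w' 0 g').2.2.1
  have hvP : ∀ κ' : J → ℕ, ¬ κ' ≤ u → Ψ κ' = 0 := by
    intro κ' hn
    exact psi_zero_ge hn κ' le_rfl
  have hmain := hsup J κ u (V : ℤ) EN ER
    (fun e κ' => (if e < EN then Up s (s + 2) EW E0 Ψ k (w + e) (stN s b e g) κ'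
      else supE s (stN s b e g) * Ψ κ') + if e < EN then
        HF s EW E0 Ψ1 k (w + e) (stN s b e g) κ' else 0)
    (fun e κ' => (if e < ER then Up s (s + 2) EW E0 Ψ k (w + e) (stR s e g) κ'
      else supE s (stR s e g) * Ψ κ') + if e < ER then
        HF s EW E0 Ψ1 k (w + e) (stR s e g) κ' else 0)
    hle (by positivity) hEN1 hER1
    (by
      intro j e hj he1 he2 hle'
      simp only [if_pos he2]
      have h2 := h1 (w + e) (stN s b e g) (κ + Pi.single j (e + 1))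
        (by rw [single_wt hbas]; omega)
      refine le_trans ?_ h2
      have h3 := (htrn J κ u (s + 2) (s - 1) hwu hκ2 j e he1).1 s g hj (by omega) hle'
      rw [← hb, ← hY] at h3
      rw [hV]
      exact_mod_cast (by
        rw [h3]
        exact Nat.mul_le_mul_right _ (Nat.le_add_right _ _)))
    (by
      intro j hj hle'
      simp only [lt_irrefl, if_false, add_zero]
      have h3 := (htrn J κ u (s + 2) (s - 1) hwu hκ2 j EN hEN1).1 s g hj (by omega) hle'
      rw [← hb, ← hY] at h3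
      have h4 := sup_step hpol hpsi u (s + 2) s (s - 1) hwu (by omega) (stN s b EN g)
        (κ + Pi.single j (EN + 1)) (by rw [single_wt hbas]; omega) (u j - (EN + 1))
        (by
          have := le_ex (κ + Pi.single j (EN + 1)) u j (by simp)
          simpa [hj] using this)
      rw [← h3, ← hV] at h4
      simp only [hΨ]
      exact_mod_cast h4)
    (by
      intro j e hj he1 he2 hn
      simp only [hvU _ hn, hvH _ hn, hvP _ hn]
      simp)
    (by
      intro j e hj he1 he2 hle'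
      simp only [if_pos he2]
      have h2 := h1 (w + e) (stR s e g) (κ + Pi.single j e)
        (by rw [single_wt hbas]; omega)
      refine le_trans ?_ h2
      have h3 := (htrn J κ u (s + 2) (s - 1) hwu hκ2 j e he1).2.1 s g hj (by omega) hle'
      rw [← hY] at h3
      rw [hV]
      exact_mod_cast (by
        rw [h3]
        exact Nat.mul_le_mul_right _ (Nat.le_add_right _ _)))
    (by
      intro j hj hle'
      simp only [lt_irrefl, if_false, add_zero]
      have h3 := (htrn J κ u (s + 2) (s - 1) hwu hκ2 j ER hER1).2.1 s g hj (by omega) hle'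
      rw [← hY] at h3
      have h4 := sup_step hpol hpsi u (s + 2) s (s - 1) hwu (by omega) (stR s ER g)
        (κ + Pi.single j ER) (by rw [single_wt hbas]; omega) (u j - (κ j + ER))
        (by
          have := le_ex (κ + Pi.single j ER) u j (by simp [hj])
          simpa using this)
      rw [← h3, ← hV] at h4
      simp only [hΨ]
      exact_mod_cast h4)
    (by
      intro j e hj he1 he2 hn
      simp only [hvU _ hn, hvH _ hn, hvP _ hn]
      simp)
  rw [← mvs_add_pred] at hmain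
  have hst := star hpol hpsi u s hw hs g κ hκ2
  rw [← hY, ← hV] at hst
  have hst' : (ev g s : ℤ) * Ψ κ = ((ev g Y + ev (dd s g) Y : ℕ) : ℤ) * Ψ κ +
      (ex κ u : ℤ) * (V : ℤ) := by
    simp only [hΨ]
    exact_mod_cast hst
  have hp : ((ev (dd s g) Y * psi (s + 2) κ u : ℕ) : ℤ) ≤
      ((s * ev (dd s g) (s - 1) : ℕ) : ℤ) * Ψ1 κ := by
    have h5 := hpsi.2 J κ u s hw (by omega)
    rw [h5]
    simp only [hΨ1]
    have h6 : ev (dd s g) Y * ((s - ex κ u) * psi (s + 1) κ u) ≤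
        (s * ev (dd s g) (s - 1)) * psi (s + 1) κ u := by
      have h7 := hpol.1 (dd s g) Y (s - 1) (by omega)
      calc ev (dd s g) Y * ((s - ex κ u) * psi (s + 1) κ u)
          ≤ ev (dd s g) (s - 1) * (s * psi (s + 1) κ u) :=
            Nat.mul_le_mul h7 (Nat.mul_le_mul_right _ (by omega))
        _ = (s * ev (dd s g) (s - 1)) * psi (s + 1) κ u := by ring
    exact_mod_cast h6
  unfold Low HS
  rw [← hb, ← hEN, ← hER]
  have hΨκ : Ψ κ = (psi (s + 2) κ u : ℤ) := rfl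
  push_cast at hst' hp ⊢
  rw [hΨκ] at hst' ⊢
  nlinarith [hmain, hst', hp]

include hpol hbas htrn hpsi hslo hzer in
theorem p1_of_p2 (u : J → ℕ) (s EW E0 k : ℕ) (hw : wt u = 2 * s + 1) (hs : 1 ≤ s)
    (h2 : P2 u s EW E0 k) : P1 u s EW E0 (k + 1) := by
  intro w g κ hκ
  by_cases hle : κ ≤ u
  swap
  · have hz := hzer J (fun κ' => (psi (s + 2) κ' u : ℤ)) κ
      (fun κ' h' => psi_zero_ge hle κ' h') s (s + 2) 0 EW E0 (k + 1) w 0 g
    have hz' := hzer J (fun κ' => (psi (s + 1) κ' u : ℤ)) κ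
      (fun κ' h' => psi_zero_ge hle κ' h') s (s + 2) 0 EW E0 (k + 1) w 0 g
    rw [hz.1, hz'.2.2.1, psi_zero hle]
    simp
  set b := s + 2 - wt κ with hb
  set Y := s - 1 - ex κ u with hY
  set V : ℕ := ev (dd s g) Y * psi (s + 2) κ u with hV
  set Ψ : (J → ℕ) → ℤ := fun κ' => (psi (s + 2) κ' u : ℤ) with hΨ
  set Ψ1 : (J → ℕ) → ℤ := fun κ' => (psi (s + 1) κ' u : ℤ) with hΨ1
  have hwu : wt u = (s + 2) + (s - 1) := by omega
  have hvU : ∀ κ' : J → ℕ, ¬ κ' ≤ u → ∀ w' g',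
      Low s (s + 2) E0 Ψ (Up s (s + 2) EW E0 Ψ k) w' g' κ' = 0 := by
    intro κ' hn w' g'
    exact (hzer J Ψ κ' (fun κ'' h' => psi_zero_ge hn κ'' h') s (s + 2) 0 EW E0 k w' 0 g').2.1
  have hvH : ∀ κ' : J → ℕ, ¬ κ' ≤ u → ∀ w' g', HS s E0 Ψ1 (HF s EW E0 Ψ1 k) w' g' κ' = 0 := by
    intro κ' hn w' g'
    exact (hzer J Ψ1 κ' (fun κ'' h' => psi_zero_ge hn κ'' h') s (s + 2) 0 EW E0 k w' 0 g').2.2.2.1
  have hmain := hslo J κ u (V : ℤ) (EW - w) (EW - w)
    (fun e κ' => (if e + 3 ≤ b then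
        Low s (s + 2) E0 Ψ (Up s (s + 2) EW E0 Ψ k) (w + e) (stN s b e g) κ' else 0) -
      (if e + 3 ≤ b then HS s E0 Ψ1 (HF s EW E0 Ψ1 k) (w + e) (stN s b e g) κ' else 0))
    (fun e κ' => (if e + 2 ≤ b then
        Low s (s + 2) E0 Ψ (Up s (s + 2) EW E0 Ψ k) (w + e) (stR s e g) κ' else 0) -
      (if e + 2 ≤ b then HS s E0 Ψ1 (HF s EW E0 Ψ1 k) (w + e) (stR s e g) κ' else 0))
    hle (by positivity)
    (by
      intro j e hj he1 he2 hle'
      by_cases hc : e + 3 ≤ b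
      · simp only [if_pos hc]
        have h4 := h2 (w + e) (stN s b e g) (κ + Pi.single j (e + 1))
          (by rw [single_wt hbas]; omega)
        have h3 := (htrn J κ u (s + 2) (s - 1) hwu hκ j e he1).1 s g hj (by omega) hle'
        rw [← hb, ← hY, ← hV] at h3
        rw [← h3] at h4
        linarith
      · simp only [if_neg hc]
        simp)
    (by
      intro j e hj he1 he2 hn
      simp only [hvU _ hn, hvH _ hn]
      simp)
    (by
      intro j e hj he1 he2 hle'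
      by_cases hc : e + 2 ≤ b
      · simp only [if_pos hc]
        have h4 := h2 (w + e) (stR s e g) (κ + Pi.single j e)
          (by rw [single_wt hbas]; omega)
        have h3 := (htrn J κ u (s + 2) (s - 1) hwu hκ j e he1).2.1 s g hj (by omega) hle'
        rw [← hY, ← hV] at h3
        rw [← h3] at h4
        linarith
      · simp only [if_neg hc]
        simp)
    (by
      intro j e hj he1 he2 hn
      simp only [hvU _ hn, hvH _ hn]
      simp)
  rw [← mvs_sub] at hmain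
  have hst := star hpol hpsi u s hw hs g κ hκ
  rw [← hY, ← hV] at hst
  have hst' : (ev g s : ℤ) * Ψ κ = (((ev g Y + ev (dd s g) Y) * psi (s + 2) κ u : ℕ) : ℤ) +
      (ex κ u : ℤ) * (V : ℤ) := by
    simp only [hΨ]
    exact_mod_cast hst
  unfold Up HF
  rw [← hb]
  linarith

/-- (CB) -/
theorem cb (hpol : T_POL) (hbas : T_BAS) (htrn : T_TRN) (hpsi : T_PSI) (hslo : T_SLO)
    (hsup : T_SUP) (hzer : T_ZER) : T_CB := by
  intro J _ u s EW E0 hw hs hE0
  have h : ∀ k, P1 u s EW E0 k := by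
    intro k
    induction k with
    | zero =>
      intro w g κ hκ
      have hst := star hpol hpsi u s hw hs g κ hκ
      unfold Up HF
      have : (ev g (s - 1 - ex κ u) + ev (dd s g) (s - 1 - ex κ u)) * psi (s + 2) κ u ≤
          ev g s * psi (s + 2) κ u := by
        rw [hst]
        exact Nat.le_add_right _ _
      rw [add_zero]
      exact_mod_cast this
    | succ k ih =>
      exact p1_of_p2 hpol hbas htrn hpsi hslo hzer u s EW E0 k hw hs
        (p2_of_p1 hpol hbas htrn hpsi hsup hzer u s EW E0 k hw hs hE0 ih)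
  exact ⟨fun k => h k, fun k => p2_of_p1 hpol hbas htrn hpsi hsup hzer u s EW E0 k hw hs hE0 (h k)⟩

end Pool.Agent.H41.GW
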