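import Pool.Agent.H71.GW.Targets

/-!
# Module VAL: values of the functionals
-/

set_option autoImplicit false

open Finset
open scoped Classical

namespace Pool.Agent.H41.GW

open Pool.Agent.H71.GW

/-- adding `e` to the coordinate `j` (with the classical decidability, as in the definitions) -/
noncomputable def bump {J : Type} (κ : J → ℕ) (j : J) (e : ℕ) : J → ℕ := κ + Pi.single j e

theorem bump_same {J : Type} (κ : J → ℕ) (j : J) (e : ℕ) : bump κ j e j = κ j + e := by
  simp [bump]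

theorem bump_ne {J : Type} (κ : J → ℕ) {i j : J} (h : i ≠ j) (e : ℕ) :
    bump κ j e i = κ i := by
  simp [bump, h]

theorem mvs_bump {J : Type} [Fintype J] (κ : J → ℕ) (EN ER : ℕ) (FN FR : ℕ → (J → ℕ) → ℤ) :
    mvs κ EN ER FN FR = ∑ j, if κ j = 0 then ∑ e ∈ Icc 1 EN, FN e (bump κ j (e + 1))
    else ∑ e ∈ Icc 1 ER, FR e (bump κ j e) := rfl

theorem bas_bump (hbas : T_BAS) {J : Type} [Fintype J] (κ : J → ℕ) (j : J) (e : ℕ) :
    (wt (bump κ j e) = wt κ + e) ∧ (κ j = 0 → len (bump κ j (e + 1)) = len κ + 1) ∧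
      (κ j ≠ 0 → len (bump κ j e) = len κ) :=
  ⟨((hbas J κ κ).2 j e).1, ((hbas J κ κ).2 j e).2.1, ((hbas J κ κ).2 j e).2.2.1⟩

variable {ι : Type} [Fintype ι]

/-- the opposite coordinate -/
def fl (j : ι × Bool) : ι × Bool := (j.1, !j.2)

omit [Fintype ι] in
theorem fl_fl (j : ι × Bool) : fl (fl j) = j := by
  rcases j with ⟨x, b⟩
  cases b <;> rfl

omit [Fintype ι] in
theorem fl_ne (j : ι × Bool) : fl j ≠ j := by
  rcases j with ⟨x, b⟩
  cases b <;> simp [fl]

omit [Fintype ι] in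
theorem val_iff (u : ι × Bool → ℕ) : Val u ↔ ∀ j, u j = 0 ∨ u (fl j) = 0 := by
  constructor
  · intro h j
    rcases j with ⟨x, b⟩
    rcases h x with h | h <;> cases b <;> simp [fl, h]
  · intro h x
    exact h (x, true)

omit [Fintype ι] in
theorem val_mono {u v : ι × Bool → ℕ} (h : u ≤ v) (hv : Val v) : Val u := by
  intro x
  have h1 : u (x, true) ≤ v (x, true) := h (x, true)
  have h2 : u (x, false) ≤ v (x, false) := h (x, false)
  rcases hv x with hx | hx
  · left
    omega
  · right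
    omega

omit [Fintype ι] in
theorem val_new {κ : ι × Bool → ℕ} (hκ : Val κ) {j : ι × Bool} (hj : κ j = 0) (e : ℕ) :
    Val (bump κ j (e + 1)) ↔ κ (fl j) = 0 := by
  have hfj : bump κ j (e + 1) (fl j) = κ (fl j) := by
    exact bump_ne κ (fl_ne j) _
  constructor
  · intro h
    have h2 := (val_iff _).1 h j
    rw [hfj] at h2
    rcases h2 with h2 | h2
    · rw [bump_same] at h2
      omega
    · exact h2
  · intro h
    rw [val_iff]
    intro i
    by_cases hi : i = j
    · subst hi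
      right
      rw [hfj, h]
    · by_cases hi2 : i = fl j
      · subst hi2
        left
        rw [hfj, h]
      · have h3 : fl i ≠ j := by
          intro h4
          exact hi2 (by rw [← h4, fl_fl])
        have h5 := (val_iff _).1 hκ i
        rw [bump_ne κ hi, bump_ne κ h3]
        exact h5

omit [Fintype ι] in
theorem val_raise {κ : ι × Bool → ℕ} (hκ : Val κ) {j : ι × Bool} (hj : κ j ≠ 0) (e : ℕ) :
    Val (bump κ j e) := by
  have h0 := (val_iff _).1 hκ j
  have hz : κ (fl j) = 0 := by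
    rcases h0 with h0 | h0
    · exact absurd h0 hj
    · exact h0
  have hfj : bump κ j e (fl j) = 0 := by
    rw [bump_ne κ (fl_ne j) _, hz]
  rw [val_iff]
  intro i
  by_cases hi : i = j
  · subst hi
    right
    exact hfj
  · by_cases hi2 : i = fl j
    · subst hi2
      left
      exact hfj
    · have h3 : fl i ≠ j := by
        intro h4
        exact hi2 (by rw [← h4, fl_fl])
      have h5 := (val_iff _).1 hκ i
      rw [bump_ne κ hi, bump_ne κ h3]
      exact h5

theorem len_le_wt {J : Type} [Fintype J] (κ : J → ℕ) : len κ ≤ wt κ := by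
  unfold len wt
  rw [Finset.card_eq_sum_ones, Finset.sum_filter]
  refine Finset.sum_le_sum fun j _ => ?_
  split_ifs with h
  · omega
  · exact Nat.zero_le _

/-- the number of free coordinates -/
theorem card_free {κ : ι × Bool → ℕ} (hκ : Val κ) :
    #{j : ι × Bool | κ j = 0 ∧ κ (fl j) = 0} + 2 * len κ = 2 * Fintype.card ι := by
  have h1 : #{j : ι × Bool | κ (fl j) ≠ 0} = len κ := by
    unfold len
    refine Finset.card_bij (fun j _ => fl j) ?_ ?_ ?_
    · intro j hj
      simpa using hj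
    · intro i _ j _ hij
      rw [← fl_fl i, hij, fl_fl]
    · intro j hj
      refine ⟨fl j, ?_, fl_fl j⟩
      simpa [fl_fl] using hj
  have h2 : Disjoint (Finset.univ.filter fun j : ι × Bool => κ j ≠ 0)
      (Finset.univ.filter fun j : ι × Bool => κ (fl j) ≠ 0) := by
    rw [Finset.disjoint_filter]
    intro j _ hj hj2
    rcases (val_iff _).1 hκ j with h | h
    · exact hj h
    · exact hj2 h
  have h3 : (Finset.univ.filter fun j : ι × Bool => κ j = 0 ∧ κ (fl j) = 0) =
      ((Finset.univ.filter fun j : ι × Bool => κ j ≠ 0) ∪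
        (Finset.univ.filter fun j : ι × Bool => κ (fl j) ≠ 0))ᶜ := by
    ext j
    simp
  rw [h3, Finset.card_compl, Finset.card_union_of_disjoint h2, h1]
  have h4 : #{j : ι × Bool | κ j ≠ 0} = len κ := rfl
  rw [h4]
  have h5 : Fintype.card (ι × Bool) = 2 * Fintype.card ι := by
    rw [Fintype.card_prod, Fintype.card_bool, mul_comm]
  have h6 := Finset.card_le_univ ((Finset.univ.filter fun j : ι × Bool => κ j ≠ 0) ∪
        (Finset.univ.filter fun j : ι × Bool => κ (fl j) ≠ 0))
  rw [Finset.card_union_of_disjoint h2, h1, h4] at h6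
  rw [h5] at h6 ⊢
  omega

theorem nu_succ (m c : ℕ) (h : c ≤ m) : nu m (c + 1) = nu m c * (2 * ((m - c : ℕ) : ℤ)) := by
  unfold nu
  rw [Nat.descFactorial_succ]
  push_cast [h]
  ring

/-- the key lemma -/
theorem mvs_val (hlst : T_LST) {κ : ι × Bool → ℕ} (hκ : Val κ) (EN ER : ℕ)
    (FN FR : ℕ → (ι × Bool → ℕ) → ℤ) (LN LR : ℕ → List ℤ) (c : ℕ)
    (h0 : ∀ (j : ι × Bool) (e : ℕ), κ j = 0 → 1 ≤ e → e ≤ EN →
      ¬ Val (bump κ j (e + 1)) → FN e (bump κ j (e + 1)) = 0)
    (hN : ∀ (j : ι × Bool) (e : ℕ), κ j = 0 → 1 ≤ e → e ≤ EN →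
      Val (bump κ j (e + 1)) →
      FN e (bump κ j (e + 1)) * nu (Fintype.card ι) (len κ + 1) =
        eva (Fintype.card ι) (LN e) (c - e))
    (hR : ∀ (j : ι × Bool) (e : ℕ), κ j ≠ 0 → 1 ≤ e → e ≤ ER → Val (bump κ j e) →
      FR e (bump κ j e) * nu (Fintype.card ι) (len κ) =
        eva (Fintype.card ι) (LR e) (c - e))
    (hroom : 1 ≤ EN → len κ < Fintype.card ι) :
    mvs κ EN ER FN FR * nu (Fintype.card ι) (len κ) =
      eva (Fintype.card ι) (mvl (len κ) EN ER LN LR) c := by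
  rw [hlst.2.2.2, mvs_bump, Finset.sum_ite, add_mul]
  congr 1
  · -- new coordinates
    rw [Finset.sum_comm, Finset.sum_mul]
    refine Finset.sum_congr rfl fun e he => ?_
    rw [mem_Icc] at he
    have hr := hroom (le_trans he.1 he.2)
    have e2 : ∑ j ∈ Finset.univ.filter (fun j => κ j = 0), FN e (bump κ j (e + 1)) =
        ∑ j ∈ Finset.univ.filter (fun j => κ j = 0 ∧ κ (fl j) = 0),
          FN e (bump κ j (e + 1)) := by
      rw [← Finset.filter_filter]
      symm
      refine Finset.sum_subset (Finset.filter_subset _ _) ?_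
      intro j hj hj2
      have hj0 : κ j = 0 := (Finset.mem_filter.1 hj).2
      refine h0 j e hj0 he.1 he.2 ?_
      rw [val_new hκ hj0]
      intro h
      exact hj2 (Finset.mem_filter.2 ⟨hj, h⟩)
    have hpos : (0 : ℤ) < 2 * ((Fintype.card ι - len κ : ℕ) : ℤ) := by
      have : 0 < Fintype.card ι - len κ := by omega
      positivity
    have hcard := card_free hκ
    have e3 : (∑ j ∈ Finset.univ.filter (fun j => κ j = 0 ∧ κ (fl j) = 0),
          FN e (bump κ j (e + 1))) * nu (Fintype.card ι) (len κ + 1) =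
        2 * ((Fintype.card ι - len κ : ℕ) : ℤ) * eva (Fintype.card ι) (LN e) (c - e) := by
      rw [Finset.sum_mul]
      have e4 : ∀ j ∈ Finset.univ.filter (fun j => κ j = 0 ∧ κ (fl j) = 0),
          FN e (bump κ j (e + 1)) * nu (Fintype.card ι) (len κ + 1) =
            eva (Fintype.card ι) (LN e) (c - e) := by
        intro j hj
        have hj0 := (Finset.mem_filter.1 hj).2
        exact hN j e hj0.1 he.1 he.2 ((val_new hκ hj0.1 e).2 hj0.2)
      rw [Finset.sum_congr rfl e4, Finset.sum_const, nsmul_eq_mul]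
      congr 1
      have : #{j : ι × Bool | κ j = 0 ∧ κ (fl j) = 0} = 2 * (Fintype.card ι - len κ) := by
        omega
      rw [this]
      push_cast
      ring
    rw [nu_succ _ _ hr.le, ← mul_assoc] at e3
    have e6 : (∑ j ∈ Finset.univ.filter (fun j => κ j = 0),
        FN e (bump κ j (e + 1))) * nu (Fintype.card ι) (len κ) =
          eva (Fintype.card ι) (LN e) (c - e) := by
      rw [e2]
      refine mul_right_cancel₀ (ne_of_gt hpos) ?_
      rw [e3]
      ring
    convert e6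
  · have e1 : ∀ j ∈ Finset.univ.filter (fun j => ¬ κ j = 0),
        (∑ e ∈ Icc 1 ER, FR e (bump κ j e)) * nu (Fintype.card ι) (len κ) =
        ∑ e ∈ Icc 1 ER, eva (Fintype.card ι) (LR e) (c - e) := by
      intro j hj
      have hj0 := (Finset.mem_filter.1 hj).2
      rw [Finset.sum_mul]
      refine Finset.sum_congr rfl fun e he => ?_
      rw [mem_Icc] at he
      exact hR j e hj0 he.1 he.2 (val_raise hκ hj0 e)
    have e6 : (∑ j ∈ Finset.univ.filter (fun j => ¬ κ j = 0),
        ∑ e ∈ Icc 1 ER, FR e (bump κ j e)) * nu (Fintype.card ι) (len κ) =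
          (len κ : ℤ) * ∑ e ∈ Icc 1 ER, eva (Fintype.card ι) (LR e) (c - e) := by
      rw [Finset.sum_mul, Finset.sum_congr rfl e1, Finset.sum_const, nsmul_eq_mul]
      rfl
    convert e6

theorem eva_single (m : ℕ) (x : ℤ) (c : ℕ) : eva m [x] c = x * nu m c := by
  simp [eva]

section Functionals

variable (hlst : T_LST) (hbas : T_BAS)

include hlst hbas in
/-- `Low` with an abstract continuation -/
theorem low_val (s n E0 : ℕ) (hn : n ≤ Fintype.card ι) (Ψ : (ι × Bool → ℕ) → ℤ)
    (hΨ0 : ∀ κ' : ι × Bool → ℕ, ¬ Val κ' → Ψ κ' = 0)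
    (hΨ : ∀ κ' : ι × Bool → ℕ, Val κ' → wt κ' ≤ n → Ψ κ' * nu (Fintype.card ι) (len κ') =
      nu (Fintype.card ι) (len κ' + (n - wt κ')))
    (U : ℕ → List ℕ → (ι × Bool → ℕ) → ℤ) (UL : ℕ → List ℕ → ℕ → ℕ → List ℤ)
    (hU0 : ∀ w g κ', ¬ Val κ' → U w g κ' = 0)
    (hU : ∀ w g κ', Val κ' → wt κ' ≤ n → U w g κ' * nu (Fintype.card ι) (len κ') =
      eva (Fintype.card ι) (UL w g (len κ') (n - wt κ')) (len κ' + (n - wt κ')))
    (w : ℕ) (g : List ℕ) (κ : ι × Bool → ℕ) (hκ : Val κ) (hw : wt κ ≤ n) :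
    Low s n E0 Ψ U w g κ * nu (Fintype.card ι) (len κ) =
      eva (Fintype.card ι) (CL s E0 UL w g (len κ) (n - wt κ)) (len κ + (n - wt κ)) := by
  unfold Low CL
  have hlw := len_le_wt κ
  rw [hlst.1, hlst.2.1, eva_single, sub_mul, mul_assoc, hΨ κ hκ hw,
    mvs_val hlst hκ _ _ _ _ (fun e => if e < min E0 (n - wt κ - 1) then
      UL (w + e) (stN s (n - wt κ) e g) (len κ + 1) (n - wt κ - (e + 1))
      else [(supE s (stN s (n - wt κ) e g) : ℤ)])
    (fun e => if e < min E0 (n - wt κ) then UL (w + e) (stR s e g) (len κ) (n - wt κ - e)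
      else [(supE s (stR s e g) : ℤ)]) (len κ + (n - wt κ))]
  · ring
  · intro j e hj he1 he2 hv
    beta_reduce
    rw [hΨ0 _ hv, hU0 _ _ _ hv]
    simp
  · intro j e hj he1 he2 hv
    have hl := (bas_bump hbas κ j e).2.1 hj
    have hwt := (bas_bump hbas κ j (e + 1)).1
    beta_reduce
    have h3 : n - wt (bump κ j (e + 1)) = n - wt κ - (e + 1) := by omega
    have h4 : len κ + 1 + (n - wt κ - (e + 1)) = len κ + (n - wt κ) - e := by omega
    split_ifs with hc
    · have h2 := hU (w + e) (stN s (n - wt κ) e g) _ hv (by omega)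
      rw [hl, h3, h4] at h2
      exact h2
    · have h2 := hΨ _ hv (by omega)
      rw [hl, h3, h4] at h2
      rw [mul_assoc, h2, eva_single]
  · intro j e hj he1 he2 hv
    have hl := (bas_bump hbas κ j e).2.2 hj
    have hwt := (bas_bump hbas κ j e).1
    beta_reduce
    have h3 : n - wt (bump κ j e) = n - wt κ - e := by omega
    have h4 : len κ + (n - wt κ - e) = len κ + (n - wt κ) - e := by omega
    split_ifs with hc
    · have h2 := hU (w + e) (stR s e g) _ hv (by omega)
      rw [hl, h3, h4] at h2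
      exact h2
    · have h2 := hΨ _ hv (by omega)
      rw [hl, h3, h4] at h2
      rw [mul_assoc, h2, eva_single]
  · intro h
    omega

include hlst hbas in
/-- the step of `Up` with an abstract continuation -/
theorem step_val (s n N E : ℕ) (hN : N ≤ Fintype.card ι) (hnN : N ≤ n) (hNn : n ≤ N + 1)
    (L : ℕ → List ℕ → (ι × Bool → ℕ) → ℤ) (LL : ℕ → List ℕ → ℕ → ℕ → List ℤ)
    (hL0 : ∀ w g κ', ¬ Val κ' → L w g κ' = 0)
    (hL : ∀ w g κ', Val κ' → wt κ' ≤ N → L w g κ' * nu (Fintype.card ι) (len κ') =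
      eva (Fintype.card ι) (LL w g (len κ') (n - wt κ')) (len κ' + (N - wt κ')))
    (w : ℕ) (g : List ℕ) (κ : ι × Bool → ℕ) (hκ : Val κ) (hw : wt κ ≤ N) :
    mvs κ E E
      (fun e κ' => if e + 3 ≤ n - wt κ then L (w + e) (stN s (n - wt κ) e g) κ' else 0)
      (fun e κ' => if e + 2 ≤ n - wt κ then L (w + e) (stR s e g) κ' else 0) *
        nu (Fintype.card ι) (len κ) =
      eva (Fintype.card ι) (mvl (len κ) E E
      (fun e => if e + 3 ≤ n - wt κ then
        LL (w + e) (stN s (n - wt κ) e g) (len κ + 1) (n - wt κ - (e + 1)) else [])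
      (fun e => if e + 2 ≤ n - wt κ then
        LL (w + e) (stR s e g) (len κ) (n - wt κ - e) else [])) (len κ + (N - wt κ)) := by
  have hlw := len_le_wt κ
  by_cases hroom : len κ < Fintype.card ι
  · refine mvs_val hlst hκ _ _ _ _ _ _ _ ?_ ?_ ?_ (fun _ => hroom)
    · intro j e hj he1 he2 hv
      beta_reduce
      rw [hL0 _ _ _ hv]
      simp
    · intro j e hj he1 he2 hv
      have hl := (bas_bump hbas κ j e).2.1 hj
      have hwt := (bas_bump hbas κ j (e + 1)).1
      beta_reduce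
      split_ifs with hc
      · have h3 : n - wt (bump κ j (e + 1)) = n - wt κ - (e + 1) := by omega
        have h4 : len κ + 1 + (N - wt (bump κ j (e + 1))) = len κ + (N - wt κ) - e := by
          omega
        have h2 := hL (w + e) (stN s (n - wt κ) e g) _ hv (by omega)
        rw [hl, h3, h4] at h2
        exact h2
      · simp [eva]
    · intro j e hj he1 he2 hv
      have hl := (bas_bump hbas κ j e).2.2 hj
      have hwt := (bas_bump hbas κ j e).1
      beta_reduce
      split_ifs with hc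
      · have h3 : n - wt (bump κ j e) = n - wt κ - e := by omega
        have h4 : len κ + (N - wt (bump κ j e)) = len κ + (N - wt κ) - e := by
          omega
        have h2 := hL (w + e) (stR s e g) _ hv (by omega)
        rw [hl, h3, h4] at h2
        exact h2
      · simp [eva]
  · -- no room: then `N - wt κ = 0` and all terms vanish
    have hz : wt κ = N := by omega
    have h1 : n - wt κ ≤ 1 := by omega
    rw [hlst.2.2.2]
    have e1 : ∀ e ∈ Icc 1 E, eva (Fintype.card ι) (if e + 3 ≤ n - wt κ then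
        LL (w + e) (stN s (n - wt κ) e g) (len κ + 1) (n - wt κ - (e + 1)) else [])
        (len κ + (N - wt κ) - e) = 0 := by
      intro e he
      rw [if_neg (by omega)]
      rfl
    have e2 : ∀ e ∈ Icc 1 E, eva (Fintype.card ι) (if e + 2 ≤ n - wt κ then
        LL (w + e) (stR s e g) (len κ) (n - wt κ - e) else [])
        (len κ + (N - wt κ) - e) = 0 := by
      intro e he
      rw [if_neg (by omega)]
      rfl
    rw [Finset.sum_congr rfl e1, Finset.sum_congr rfl e2]
    unfold mvs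
    rw [Finset.sum_eq_zero]
    · simp
    · intro j _
      split_ifs
      · refine Finset.sum_eq_zero fun e he => ?_
        exact if_neg (by omega)
      · refine Finset.sum_eq_zero fun e he => ?_
        exact if_neg (by omega)

include hlst hbas in
/-- `HS` with an abstract continuation -/
theorem hs_val (s E0 : ℕ) (hn : s + 1 ≤ Fintype.card ι) (Ψ : (ι × Bool → ℕ) → ℤ)
    (hΨ : ∀ κ' : ι × Bool → ℕ, Val κ' → wt κ' ≤ s + 1 → Ψ κ' * nu (Fintype.card ι) (len κ') =
      nu (Fintype.card ι) (len κ' + (s + 1 - wt κ')))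
    (H : ℕ → List ℕ → (ι × Bool → ℕ) → ℤ) (HL : ℕ → List ℕ → ℕ → ℕ → List ℤ)
    (hH0 : ∀ w g κ', ¬ Val κ' → H w g κ' = 0)
    (hH : ∀ w g κ', Val κ' → wt κ' ≤ s + 1 → H w g κ' * nu (Fintype.card ι) (len κ') =
      eva (Fintype.card ι) (HL w g (len κ') (s + 2 - wt κ')) (len κ' + (s + 1 - wt κ')))
    (w : ℕ) (g : List ℕ) (κ : ι × Bool → ℕ) (hκ : Val κ) (hw : wt κ ≤ s + 1) :
    HS s E0 Ψ H w g κ * nu (Fintype.card ι) (len κ) =
      eva (Fintype.card ι) (CHS s E0 HL w g (len κ) (s + 2 - wt κ))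
        (len κ + (s + 1 - wt κ)) := by
  unfold HS CHS
  have hlw := len_le_wt κ
  rw [hlst.1, eva_single, add_mul, mul_assoc, hΨ κ hκ hw,
    mvs_val hlst hκ _ _ _ _ (fun e => HL (w + e) (stN s (s + 2 - wt κ) e g) (len κ + 1)
      (s + 2 - wt κ - (e + 1)))
    (fun e => HL (w + e) (stR s e g) (len κ) (s + 2 - wt κ - e)) (len κ + (s + 1 - wt κ))]
  · intro j e hj he1 he2 hv
    exact hH0 _ _ _ hv
  · intro j e hj he1 he2 hv
    have hl := (bas_bump hbas κ j e).2.1 hj
    have hwt := (bas_bump hbas κ j (e + 1)).1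
    have h3 : s + 2 - wt (bump κ j (e + 1)) = s + 2 - wt κ - (e + 1) := by omega
    have h4 : len κ + 1 + (s + 1 - wt (bump κ j (e + 1))) =
        len κ + (s + 1 - wt κ) - e := by omega
    have h2 := hH (w + e) (stN s (s + 2 - wt κ) e g) _ hv (by omega)
    rw [hl, h3, h4] at h2
    exact h2
  · intro j e hj he1 he2 hv
    have hl := (bas_bump hbas κ j e).2.2 hj
    have hwt := (bas_bump hbas κ j e).1
    have h3 : s + 2 - wt (bump κ j e) = s + 2 - wt κ - e := by omega
    have h4 : len κ + (s + 1 - wt (bump κ j e)) = len κ + (s + 1 - wt κ) - e := by omega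
    have h2 := hH (w + e) (stR s e g) _ hv (by omega)
    rw [hl, h3, h4] at h2
    exact h2
  · intro h
    omega

end Functionals

section Values

variable (hlst : T_LST) (hbas : T_BAS) (hzer : T_ZER)

omit [Fintype ι] in
theorem van {Ψ : (ι × Bool → ℕ) → ℤ} (hΨ0 : ∀ κ' : ι × Bool → ℕ, ¬ Val κ' → Ψ κ' = 0)
    {κ : ι × Bool → ℕ} (h : ¬ Val κ) : ∀ κ' : ι × Bool → ℕ, κ ≤ κ' → Ψ κ' = 0 :=
  fun κ' h' => hΨ0 κ' fun hv => h (val_mono h' hv)

include hlst hbas hzer in
/-- values of `Up` and `Low` -/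
theorem up_val (s n EW E0 : ℕ) (hn : n ≤ Fintype.card ι) (Ψ : (ι × Bool → ℕ) → ℤ)
    (hΨ0 : ∀ κ' : ι × Bool → ℕ, ¬ Val κ' → Ψ κ' = 0)
    (hΨ : ∀ κ' : ι × Bool → ℕ, Val κ' → wt κ' ≤ n → Ψ κ' * nu (Fintype.card ι) (len κ') =
      nu (Fintype.card ι) (len κ' + (n - wt κ'))) (k : ℕ) :
    ∀ (w : ℕ) (g : List ℕ) (κ : ι × Bool → ℕ), Val κ → wt κ ≤ n →
      Up s n EW E0 Ψ k w g κ * nu (Fintype.card ι) (len κ) =
        eva (Fintype.card ι) (CU s EW E0 k w g (len κ) (n - wt κ)) (len κ + (n - wt κ)) := by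
  induction k with
  | zero =>
    intro w g κ hκ hw
    unfold Up CU
    rw [eva_single, mul_assoc, hΨ κ hκ hw]
  | succ k ih =>
    intro w g κ hκ hw
    unfold Up CU
    have h := step_val hlst hbas s n n (EW - w) hn le_rfl (by omega)
      (fun w g κ => Low s n E0 Ψ (Up s n EW E0 Ψ k) w g κ)
      (fun w g l b => CL s E0 (CU s EW E0 k) w g l b)
      (fun w g κ' h' => (hzer _ Ψ κ' (van hΨ0 h') s n 0 EW E0 k w 0 g).2.1)
      (fun w g κ' h' h'' => low_val hlst hbas s n E0 hn Ψ hΨ0 hΨ (Up s n EW E0 Ψ k)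
        (CU s EW E0 k) (fun w g κ' h' => (hzer _ Ψ κ' (van hΨ0 h') s n 0 EW E0 k w 0 g).1) ih
        w g κ' h' h'')
      w g κ hκ hw
    rw [hlst.1, hlst.2.1, eva_single, sub_mul, mul_assoc, hΨ κ hκ hw, h]
    ring

include hlst hbas hzer in
/-- values of `HF` -/
theorem hf_val (s EW E0 : ℕ) (hn : s + 1 ≤ Fintype.card ι) (Ψ : (ι × Bool → ℕ) → ℤ)
    (hΨ0 : ∀ κ' : ι × Bool → ℕ, ¬ Val κ' → Ψ κ' = 0)
    (hΨ : ∀ κ' : ι × Bool → ℕ, Val κ' → wt κ' ≤ s + 1 → Ψ κ' * nu (Fintype.card ι) (len κ') =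
      nu (Fintype.card ι) (len κ' + (s + 1 - wt κ'))) (k : ℕ) :
    ∀ (w : ℕ) (g : List ℕ) (κ : ι × Bool → ℕ), Val κ → wt κ ≤ s + 1 →
      HF s EW E0 Ψ k w g κ * nu (Fintype.card ι) (len κ) =
        eva (Fintype.card ι) (CH s EW E0 k w g (len κ) (s + 2 - wt κ))
          (len κ + (s + 1 - wt κ)) := by
  induction k with
  | zero =>
    intro w g κ hκ hw
    unfold HF CH
    simp [eva]
  | succ k ih =>
    intro w g κ hκ hw
    unfold HF CH
    exact step_val hlst hbas s (s + 2) (s + 1) (EW - w) hn (by omega) (by omega)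
      (fun w g κ => HS s E0 Ψ (HF s EW E0 Ψ k) w g κ)
      (fun w g l b => CHS s E0 (CH s EW E0 k) w g l b)
      (fun w g κ' h' => (hzer _ Ψ κ' (van hΨ0 h') s 0 0 EW E0 k w 0 g).2.2.2.1)
      (fun w g κ' h' h'' => hs_val hlst hbas s E0 hn Ψ hΨ (HF s EW E0 Ψ k)
        (CH s EW E0 k) (fun w g κ' h' => (hzer _ Ψ κ' (van hΨ0 h') s 0 0 EW E0 k w 0 g).2.2.1) ih
        w g κ' h' h'')
      w g κ hκ hw

end Values

/-- (VAL) -/
theorem val (hlst : T_LST) (hbas : T_BAS) (hzer : T_ZER) : T_VAL := by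
  intro ι _ s a EW E0 k Ψ κ hm hκ ha hΨ0
  have hlw := len_le_wt κ
  constructor
  · intro hΨ
    unfold UP CUP
    have hup := up_val hlst hbas hzer s (s + 2) EW E0 hm Ψ hΨ0 hΨ k
    refine mvs_val hlst hκ _ _ _ _ _ _ _ ?_ ?_ ?_ (fun _ => by omega)
    · intro j e hj he1 he2 hv
      beta_reduce
      rw [(hzer _ Ψ _ (van hΨ0 hv) s (s + 2) 0 EW E0 k e 0 (g1N a e)).1, hΨ0 _ hv]
      simp
    · intro j e hj he1 he2 hv
      have hl := (bas_bump hbas κ j e).2.1 hj
      have hwt := (bas_bump hbas κ j (e + 1)).1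
      have h3 : s + 2 - wt (bump κ j (e + 1)) = a + 1 - (e + 1) := by omega
      have h4 : len κ + 1 + (a + 1 - (e + 1)) = len κ + (a + 1) - e := by omega
      beta_reduce
      split_ifs with hc
      · have h2 := hup e (g1N a e) _ hv (by omega)
        rw [hl, h3, h4] at h2
        exact h2
      · have h2 := hΨ _ hv (by omega)
        rw [hl, h3, h4] at h2
        rw [mul_assoc, h2, eva_single]
    · intro j e hj he1 he2 hv
      have hl := (bas_bump hbas κ j e).2.2 hj
      have hwt := (bas_bump hbas κ j e).1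
      have h3 : s + 2 - wt (bump κ j e) = a + 1 - e := by omega
      have h4 : len κ + (a + 1 - e) = len κ + (a + 1) - e := by omega
      beta_reduce
      split_ifs with hc
      · have h2 := hup e (g1R e) _ hv (by omega)
        rw [hl, h3, h4] at h2
        exact h2
      · have h2 := hΨ _ hv (by omega)
        rw [hl, h3, h4] at h2
        rw [mul_assoc, h2, eva_single]
  · intro hΨ
    have hs1 : s + 1 ≤ Fintype.card ι := by omega
    have hup := up_val hlst hbas hzer s (s + 1) EW E0 hs1 Ψ hΨ0 hΨ 0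
    have hhf := hf_val hlst hbas hzer s EW E0 hs1 Ψ hΨ0 hΨ k
    -- value of one term of the gain
    have hgg : ∀ (e : ℕ) (g : List ℕ) (κ' : ι × Bool → ℕ), Val κ' → wt κ' ≤ s + 1 →
        GG s EW E0 k Ψ e g κ' * nu (Fintype.card ι) (len κ') =
          eva (Fintype.card ι) (CGG s EW E0 k e g (len κ') (s + 2 - wt κ'))
            (len κ' + (s + 1 - wt κ')) := by
      intro e g κ' hv hw'
      unfold GG CGG
      rw [hlst.1, hlst.2.1, sub_mul, hhf e g κ' hv hw']
      have h5 : s + 2 - wt κ' - 1 = s + 1 - wt κ' := by omega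
      split_ifs with hc
      · rw [low_val hlst hbas s (s + 1) E0 hs1 Ψ hΨ0 hΨ (Up s (s + 1) EW E0 Ψ 0)
          (CU s EW E0 0)
          (fun w g κ' h' => (hzer _ Ψ κ' (van hΨ0 h') s (s + 1) 0 EW E0 0 w 0 g).1) hup
          e (0 :: dd s g) κ' hv hw', h5]
        ring
      · simp [eva]
    unfold GAIN CGAIN
    refine mvs_val hlst hκ _ _ _ _ _ _ _ ?_ ?_ ?_ (fun _ => by omega)
    · intro j e hj he1 he2 hv
      exact (hzer _ Ψ _ (van hΨ0 hv) s (s + 2) 0 EW E0 k 0 e (g1N a e)).2.2.2.2.2.1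
    · intro j e hj he1 he2 hv
      have hl := (bas_bump hbas κ j e).2.1 hj
      have hwt := (bas_bump hbas κ j (e + 1)).1
      have h3 : s + 2 - wt (bump κ j (e + 1)) = a + 1 - (e + 1) := by omega
      have h4 : len κ + 1 + (s + 1 - wt (bump κ j (e + 1))) = len κ + a - e := by omega
      have h2 := hgg e (g1N a e) _ hv (by omega)
      rw [hl, h3, h4] at h2
      exact h2
    · intro j e hj he1 he2 hv
      have hl := (bas_bump hbas κ j e).2.2 hj
      have hwt := (bas_bump hbas κ j e).1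
      have h3 : s + 2 - wt (bump κ j e) = a + 1 - e := by omega
      have h4 : len κ + (s + 1 - wt (bump κ j e)) = len κ + a - e := by omega
      have h2 := hgg e (g1R e) _ hv (by omega)
      rw [hl, h3, h4] at h2
      exact h2

end Pool.Agent.H41.GW
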