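import Pool.Agent.H23.GW.Targets

set_option autoImplicit false

open Finset
open scoped Classical

namespace Pool.Agent.H41.GW

open Pool.Agent.H23.GW

variable {G : Type} [AddCommGroup G] [Fintype G]

theorem V_conj (T : Finset G) (hT : ∀ x ∈ T, -x ∈ T) (χ : AddChar G ℂ) :
    (starRingEnd ℂ) (V T χ) = V T χ := by
  unfold V
  rw [map_sum]
  refine Finset.sum_nbij' (fun x => -x) (fun x => -x) hT hT (by simp) (by simp) ?_
  intro x _
  rw [AddChar.map_neg_eq_conj]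

theorem V_real (T : Finset G) (hT : ∀ x ∈ T, -x ∈ T) (χ : AddChar G ℂ) :
    ∃ r : ℝ, V T χ = (r : ℂ) := by
  obtain ⟨r, hr⟩ := Complex.conj_eq_iff_real.mp (V_conj T hT χ)
  exact ⟨r, hr⟩

theorem nsmul_ne_zero' (n : ℕ) (hn : n.Coprime (Fintype.card G)) (χ : AddChar G ℂ) (hχ : χ ≠ 0) :
    n • χ ≠ 0 := by
  intro h
  apply hχ
  have h1 : addOrderOf χ ∣ n := addOrderOf_dvd_of_nsmul_eq_zero h
  have h2 : addOrderOf χ ∣ Fintype.card G := by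
    have h3 := addOrderOf_dvd_card (x := χ)
    rwa [AddChar.card_eq] at h3
  have h4 : addOrderOf χ ∣ 1 := by
    have := Nat.dvd_gcd h1 h2
    rwa [hn] at this
  rw [Nat.dvd_one] at h4
  exact AddMonoid.addOrderOf_eq_one_iff.mp h4

theorem card_odd (T : Finset G) (m : ℕ) (h : Tile3 T m) : Odd (Fintype.card G) := by
  have h1 := h.cardG
  have h2 : Odd ((2 * m + 1) * (2 * m ^ 2 + 2 * m + 3)) := by
    apply Odd.mul
    · exact ⟨m, rfl⟩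
    · exact ⟨m ^ 2 + m + 1, by ring⟩
  rw [← h1] at h2
  exact (Nat.odd_mul.mp h2).2

theorem di (hNT : T_NT) : T_DI := by
  intro G _ _ T m hT hm χ hχ
  have hodd := card_odd T m hT
  have h3 := hNT G T m hT hm
  have hc2 : Nat.Coprime 2 (Fintype.card G) := (Nat.coprime_two_left).mpr hodd
  have hc3 : Nat.Coprime 3 (Fintype.card G) := (Nat.Prime.coprime_iff_not_dvd Nat.prime_three).mpr h3
  have hm' : (20000 : ℝ) ≤ m := by exact_mod_cast hm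
  have hs0 : (0 : ℝ) ≤ √m := Real.sqrt_nonneg _
  have hss : √(m : ℝ) * √m = m := Real.mul_self_sqrt (by positivity)
  have hs141 : (141 : ℝ) ≤ √m := by
    apply Real.le_sqrt_of_sq_le
    linarith
  -- the maximum
  obtain ⟨ψ, hψ, hmax⟩ := Finset.exists_max_image
    ((univ : Finset (AddChar G ℂ)).filter (fun χ => χ ≠ 0)) (fun χ => ‖V T χ‖)
    ⟨χ, by simp [hχ]⟩
  rw [mem_filter] at hψ
  have hmax' : ∀ χ' : AddChar G ℂ, χ' ≠ 0 → ‖V T χ'‖ ≤ ‖V T ψ‖ := fun χ' h =>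
    hmax χ' (by simp [h])
  have hM : ‖V T ψ‖ ≤ 3 * √m := by
    by_contra hcon
    push Not at hcon
    set M := ‖V T ψ‖ with hMdef
    have heq := hT.char ψ hψ.2
    have h2 := hmax' (2 • ψ) (nsmul_ne_zero' 2 hc2 ψ hψ.2)
    have h3' := hmax' (3 • ψ) (nsmul_ne_zero' 3 hc3 ψ hψ.2)
    have h4 : V T ψ ^ 3 = 6 * m * V T ψ - 3 * V T ψ * V T (2 • ψ) - 2 * V T (3 • ψ) := by
      rw [← heq]; ring
    have h5 : M ^ 3 ≤ 6 * m * M + 3 * M * ‖V T (2 • ψ)‖ + 2 * ‖V T (3 • ψ)‖ := by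
      calc M ^ 3 = ‖V T ψ ^ 3‖ := by rw [norm_pow]
        _ = ‖6 * m * V T ψ - 3 * V T ψ * V T (2 • ψ) - 2 * V T (3 • ψ)‖ := by rw [h4]
        _ ≤ ‖6 * m * V T ψ‖ + ‖3 * V T ψ * V T (2 • ψ)‖ + ‖2 * V T (3 • ψ)‖ := by
            refine (norm_sub_le _ _).trans ?_
            gcongr
            exact norm_sub_le _ _
        _ = _ := by
            simp only [norm_mul, Complex.norm_natCast, Complex.norm_ofNat, ← hMdef]
    have hMpos : 0 < M := by nlinarith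
    have h6 : M ^ 3 ≤ 6 * m * M + 3 * M * M + 2 * M := by
      nlinarith
    have h7 : M ^ 2 ≤ 6 * m + 3 * M + 2 := by
      by_contra h8
      push Not at h8
      nlinarith
    nlinarith
  have hb1 : ‖V T χ‖ ≤ 3 * √m := (hmax' χ hχ).trans hM
  have hb2 : ‖V T (2 • χ)‖ ≤ 3 * √m := (hmax' _ (nsmul_ne_zero' 2 hc2 χ hχ)).trans hM
  have hb3 : ‖V T (3 • χ)‖ ≤ 3 * √m := (hmax' _ (nsmul_ne_zero' 3 hc3 χ hχ)).trans hM
  have heq := hT.char χ hχ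
  refine ⟨hb1, ?_, ?_⟩
  · intro hle
    have h1 : V T χ * (6 * m - V T χ ^ 2 - 3 * V T (2 • χ)) = 2 * V T (3 • χ) := by
      linear_combination -heq
    have h2 : ‖V T χ‖ * ‖(6 * m - V T χ ^ 2 - 3 * V T (2 • χ) : ℂ)‖ = 2 * ‖V T (3 • χ)‖ := by
      rw [← norm_mul, h1, norm_mul, Complex.norm_ofNat]
    have h3 : 4 * (m : ℝ) ≤ ‖(6 * m - V T χ ^ 2 - 3 * V T (2 • χ) : ℂ)‖ := by
      have h4 : ‖(6 * m : ℂ)‖ ≤ ‖(6 * m - V T χ ^ 2 - 3 * V T (2 • χ) : ℂ)‖ + ‖V T χ ^ 2‖ +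
          ‖3 * V T (2 • χ)‖ := by
        calc ‖(6 * m : ℂ)‖ = ‖(6 * m - V T χ ^ 2 - 3 * V T (2 • χ) : ℂ) + V T χ ^ 2 +
            3 * V T (2 • χ)‖ := by congr 1; ring
          _ ≤ _ := norm_add₃_le
      rw [norm_pow, norm_mul, norm_mul, Complex.norm_natCast, Complex.norm_ofNat,
        Complex.norm_ofNat] at h4
      have h5 : ‖V T χ‖ ^ 2 ≤ m := by
        nlinarith [norm_nonneg (V T χ)]
      nlinarith
    have h6 : ‖V T χ‖ * (4 * m) ≤ 2 * (3 * √m) := by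
      calc ‖V T χ‖ * (4 * m) ≤ ‖V T χ‖ * ‖(6 * m - V T χ ^ 2 - 3 * V T (2 • χ) : ℂ)‖ := by
            gcongr
        _ = 2 * ‖V T (3 • χ)‖ := h2
        _ ≤ _ := by gcongr
    have hspos : 0 < √(m : ℝ) := by linarith
    rw [le_div_iff₀ hspos]
    have h7 : ‖V T χ‖ * √m * (4 * √m) ≤ 3 / 2 * (4 * √m) := by
      nlinarith
    exact le_of_mul_le_mul_right h7 (by positivity)
  · intro hlt
    obtain ⟨r, hr⟩ := V_real T hT.neg_mem χ
    have hVpos : 0 < ‖V T χ‖ := by linarith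
    have hV0 : V T χ ≠ 0 := norm_pos_iff.mp hVpos
    have h1 : V T χ * (V T χ ^ 2 - 6 * m) = -(3 * V T χ * V T (2 • χ)) - 2 * V T (3 • χ) := by
      linear_combination heq
    have h2 : ‖V T χ‖ * ‖(V T χ ^ 2 - 6 * m : ℂ)‖ ≤ ‖V T χ‖ * (10 * √m) := by
      calc ‖V T χ‖ * ‖(V T χ ^ 2 - 6 * m : ℂ)‖ =
          ‖-(3 * V T χ * V T (2 • χ)) - 2 * V T (3 • χ)‖ := by rw [← norm_mul, h1]
        _ ≤ ‖-(3 * V T χ * V T (2 • χ))‖ + ‖2 * V T (3 • χ)‖ := norm_sub_le _ _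
        _ = 3 * ‖V T χ‖ * ‖V T (2 • χ)‖ + 2 * ‖V T (3 • χ)‖ := by
            rw [norm_neg]
            simp only [norm_mul, Complex.norm_ofNat]
        _ ≤ 3 * ‖V T χ‖ * (3 * √m) + 2 * (3 * √m) := by gcongr
        _ ≤ ‖V T χ‖ * (10 * √m) := by nlinarith
    have h3 := le_of_mul_le_mul_left h2 hVpos
    have h4 : ‖(V T χ ^ 2 - 6 * m : ℂ)‖ = |‖V T χ‖ ^ 2 - 6 * m| := by
      rw [hr]
      have : ((r : ℂ) ^ 2 - 6 * m : ℂ) = ((r ^ 2 - 6 * m : ℝ) : ℂ) := by push_cast; ring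
      rw [this, Complex.norm_real, Real.norm_eq_abs, Complex.norm_real, Real.norm_eq_abs, sq_abs]
    rwa [h4] at h3

end Pool.Agent.H41.GW
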