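import Pool.Agent.H23.GW.Targets
import Pool.Agent.H30.Vino.Divisor

set_option autoImplicit false

open Finset
open scoped Classical

namespace Pool.Agent.H41.GW

open Pool.Agent.H23.GW

section

variable {G : Type} [AddCommGroup G] [Fintype G]

/-- the sum over the units -/
noncomputable def SU (T : Finset G) (g : G) : ℝ :=
  ∑ t : (ZMod (Fintype.card G))ˣ, (r2 T ((t : ZMod (Fintype.card G)).val • g) : ℝ)

theorem unit_nsmul_ne_zero (t : (ZMod (Fintype.card G))ˣ) (g : G) (hg : g ≠ 0) :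
    (t : ZMod (Fintype.card G)).val • g ≠ 0 := by
  intro h
  apply hg
  have h1 : addOrderOf g ∣ (t : ZMod (Fintype.card G)).val := addOrderOf_dvd_of_nsmul_eq_zero h
  have h2 : addOrderOf g ∣ Fintype.card G := addOrderOf_dvd_card
  have h3 := ZMod.val_coe_unit_coprime t
  have h4 : addOrderOf g ∣ 1 := by
    have := Nat.dvd_gcd h1 h2
    rwa [Nat.Coprime.gcd_eq_one h3] at this
  rw [Nat.dvd_one] at h4
  exact AddMonoid.addOrderOf_eq_one_iff.mp h4

theorem SU_le_two (T : Finset G) (m : ℕ) (hT : Tile3 T m) (g : G) (hg : g ≠ 0) :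
    SU T g ≤ 2 * Fintype.card (ZMod (Fintype.card G))ˣ := by
  unfold SU
  calc ∑ t : (ZMod (Fintype.card G))ˣ, (r2 T ((t : ZMod (Fintype.card G)).val • g) : ℝ)
      ≤ ∑ t : (ZMod (Fintype.card G))ˣ, (2 : ℝ) := by
        refine Finset.sum_le_sum fun t _ => ?_
        exact_mod_cast hT.r_le _ (unit_nsmul_ne_zero t g hg)
    _ = _ := by
        rw [Finset.sum_const, nsmul_eq_mul, Finset.card_univ]; ring

theorem SU_zero (T : Finset G) :
    SU T 0 = Fintype.card (ZMod (Fintype.card G))ˣ * (r2 T 0 : ℝ) := by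
  unfold SU
  simp only [smul_zero, Finset.sum_const, nsmul_eq_mul, Finset.card_univ]

theorem r2_zero_le (T : Finset G) : r2 T 0 ≤ #T := by
  unfold r2
  refine Finset.card_le_card_of_injOn (fun q => q.1) ?_ ?_
  · intro q hq
    simp only [Finset.coe_filter, Finset.mem_product, Set.mem_ofPred_eq] at hq
    exact hq.1.1
  · intro q hq q' hq' h
    simp only [Finset.coe_filter, Finset.mem_product, Set.mem_ofPred_eq] at hq hq'
    have h1 : q.1 = q'.1 := h
    have h2 : q.2 = q'.2 := by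
      have h3 := hq.2
      rw [← hq'.2, h1] at h3
      exact add_left_cancel h3
    exact Prod.ext h1 h2

theorem sum_r2 (T : Finset G) : ∑ g, (r2 T g : ℝ) = (#T : ℝ) ^ 2 := by
  have h1 : ∑ g, r2 T g = #T * #T := by
    rw [← Finset.card_product]
    exact (Finset.card_eq_sum_card_fiberwise (f := fun q : G × G => q.1 + q.2)
      (s := T ×ˢ T) (t := univ) (fun _ _ => Finset.mem_coe.mpr (Finset.mem_univ _))).symm
  have h2 : ((∑ g, r2 T g : ℕ) : ℝ) = ((#T * #T : ℕ) : ℝ) := by rw [h1]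
  push_cast at h2
  rw [h2]; ring

/-- averaging over the units modulo `N` reduces to the units modulo the order -/
theorem SU_eq (T : Finset G) (g : G) [NeZero (addOrderOf g)] :
    (Nat.totient (addOrderOf g) : ℝ) * SU T g = Fintype.card (ZMod (Fintype.card G))ˣ *
      ∑ s : (ZMod (addOrderOf g))ˣ, (r2 T ((s : ZMod (addOrderOf g)).val • g) : ℝ) := by
  set F : (ZMod (addOrderOf g))ˣ → ℝ := fun s => (r2 T ((s : ZMod (addOrderOf g)).val • g) : ℝ)
    with hF
  have hdvd : addOrderOf g ∣ Fintype.card G := addOrderOf_dvd_card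
  set f := ZMod.unitsMap hdvd with hf
  have hsurj : Function.Surjective f := ZMod.unitsMap_surjective hdvd
  have hval : ∀ t : (ZMod (Fintype.card G))ˣ,
      (r2 T ((t : ZMod (Fintype.card G)).val • g) : ℝ) = F (f t) := by
    intro t
    have h1 : ((f t : (ZMod (addOrderOf g))ˣ) : ZMod (addOrderOf g)).val =
        (t : ZMod (Fintype.card G)).val % addOrderOf g := by
      rw [hf, ZMod.unitsMap_val, ZMod.cast_eq_val, ZMod.val_natCast]
    simp only [hF]
    rw [h1, mod_addOrderOf_nsmul]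
  set c : ℕ := #{t : (ZMod (Fintype.card G))ˣ | f t = 1} with hc
  have hfib : ∀ s : (ZMod (addOrderOf g))ˣ, #{t : (ZMod (Fintype.card G))ˣ | f t = s} = c := by
    intro s
    exact MonoidHom.card_fiber_eq_of_mem_range f (hsurj s) (hsurj 1)
  have hsum : ∀ F' : (ZMod (addOrderOf g))ˣ → ℝ,
      ∑ t : (ZMod (Fintype.card G))ˣ, F' (f t) = c * ∑ s, F' s := by
    intro F'
    rw [← Finset.sum_fiberwise (s := univ) (g := f) (f := fun t => F' (f t)), Finset.mul_sum]
    refine Finset.sum_congr rfl fun s _ => ?_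
    have h1 : ∀ t ∈ (univ : Finset (ZMod (Fintype.card G))ˣ).filter (fun t => f t = s),
        F' (f t) = F' s := by
      intro t ht
      rw [(Finset.mem_filter.mp ht).2]
    rw [Finset.sum_congr rfl h1, Finset.sum_const, nsmul_eq_mul, hfib s]
  have h1 : SU T g = c * ∑ s, F s := by
    rw [← hsum F]
    unfold SU
    exact Finset.sum_congr rfl fun t _ => hval t
  have h2 : (Fintype.card (ZMod (Fintype.card G))ˣ : ℝ) = c * Nat.totient (addOrderOf g) := by
    have h3 := hsum (fun _ => 1)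
    simp only [Finset.sum_const, nsmul_eq_mul, mul_one, Finset.card_univ] at h3
    rw [h3, ZMod.card_units_eq_totient]
  rw [h1, h2]
  ring

theorem sum_units_le (T : Finset G) (g : G) [NeZero (addOrderOf g)] :
    ∑ s : (ZMod (addOrderOf g))ˣ, (r2 T ((s : ZMod (addOrderOf g)).val • g) : ℝ) ≤
      ∑ h with h ∈ AddSubgroup.zmultiples g, (r2 T h : ℝ) := by
  have hinj : Set.InjOn (fun s : (ZMod (addOrderOf g))ˣ => (s : ZMod (addOrderOf g)).val • g)
      (univ : Finset (ZMod (addOrderOf g))ˣ) := by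
    intro s _ s' _ h
    have h1 : (s : ZMod (addOrderOf g)).val • g = (s' : ZMod (addOrderOf g)).val • g := h
    have h2 := (nsmul_inj_mod (x := g)).mp h1
    rw [Nat.mod_eq_of_lt (ZMod.val_lt _), Nat.mod_eq_of_lt (ZMod.val_lt _)] at h2
    exact Units.ext (ZMod.val_injective _ h2)
  rw [← Finset.sum_image (f := fun h => (r2 T h : ℝ)) hinj]
  refine Finset.sum_le_sum_of_subset_of_nonneg ?_ (fun _ _ _ => by positivity)
  intro h hh
  rw [Finset.mem_image] at hh
  obtain ⟨s, _, rfl⟩ := hh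
  rw [Finset.mem_filter]
  exact ⟨Finset.mem_univ _, AddSubgroup.nsmul_mem_zmultiples g _⟩

theorem le_divisors_mul_totient (e : ℕ) : e ≤ e.divisors.card * e.totient := by
  rcases Nat.eq_zero_or_pos e with rfl | he
  · simp
  conv_lhs => rw [← Nat.sum_totient e]
  calc ∑ d ∈ e.divisors, d.totient ≤ ∑ d ∈ e.divisors, e.totient := by
        refine Finset.sum_le_sum fun d hd => ?_
        exact Nat.le_of_dvd (Nat.totient_pos.mpr he) (Nat.totient_dvd_of_dvd (Nat.dvd_of_mem_divisors hd))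
    _ = _ := by rw [Finset.sum_const, smul_eq_mul]

/-- the bound from the cyclic subgroup generated by `g` -/
theorem SU_le (hSB : T_SB) (T : Finset G) (m : ℕ) (hT : Tile3 T m) (hm : 20000 ≤ m) (g : G) :
    SU T g ≤ Fintype.card (ZMod (Fintype.card G))ˣ * ((addOrderOf g).divisors.card *
      ((2 * m + 1) ^ 2 / Fintype.card G + 9 * m / addOrderOf g)) := by
  haveI : NeZero (addOrderOf g) := ⟨(addOrderOf_pos g).ne'⟩
  have he : (0 : ℝ) < addOrderOf g := by exact_mod_cast addOrderOf_pos g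
  have hφ : (0 : ℝ) < Nat.totient (addOrderOf g) := by
    exact_mod_cast Nat.totient_pos.mpr (addOrderOf_pos g)
  have hN : (0 : ℝ) < Fintype.card G := by exact_mod_cast Fintype.card_pos
  have h1 := SU_eq T g
  have h2 := sum_units_le T g
  have h3 := hSB G T m hT hm (AddSubgroup.zmultiples g)
  rw [Nat.card_zmultiples] at h3
  have h4 : (addOrderOf g : ℝ) ≤ (addOrderOf g).divisors.card * Nat.totient (addOrderOf g) := by
    exact_mod_cast le_divisors_mul_totient (addOrderOf g)
  set u : ℝ := ((Fintype.card (ZMod (Fintype.card G))ˣ : ℕ) : ℝ) with hu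
  have hu0 : 0 ≤ u := by positivity
  set φ : ℝ := ((Nat.totient (addOrderOf g) : ℕ) : ℝ) with hφdef
  set e : ℝ := ((addOrderOf g : ℕ) : ℝ) with hedef
  set d : ℝ := (((addOrderOf g).divisors.card : ℕ) : ℝ) with hd
  set N : ℝ := ((Fintype.card G : ℕ) : ℝ) with hNdef
  set M : ℝ := ((m : ℕ) : ℝ) with hMdef
  have hM0 : 0 ≤ M := by positivity
  have hB : 0 ≤ (2 * M + 1) ^ 2 / N + 9 * M / e := by positivity
  have h5 : φ * SU T g ≤ u * ((2 * M + 1) ^ 2 * e / N + 9 * M) := by
    rw [h1]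
    gcongr
    exact h2.trans h3
  have h6 : (2 * M + 1) ^ 2 * e / N + 9 * M = e * ((2 * M + 1) ^ 2 / N + 9 * M / e) := by
    field_simp
  rw [h6] at h5
  have h7 : φ * SU T g ≤ φ * (u * (d * ((2 * M + 1) ^ 2 / N + 9 * M / e))) := by
    calc φ * SU T g ≤ u * (e * ((2 * M + 1) ^ 2 / N + 9 * M / e)) := h5
      _ ≤ u * ((d * φ) * ((2 * M + 1) ^ 2 / N + 9 * M / e)) := by gcongr
      _ = _ := by ring
  exact le_of_mul_le_mul_left h7 hφ

/-- the `e`-torsion subgroup has index at least `exponent / e` -/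
theorem torsion_card (e : ℕ) (he : 0 < e) :
    (Nat.card (nsmulAddMonoidHom (α := G) e).ker : ℝ) * AddMonoid.exponent G ≤
      Fintype.card G * e := by
  set f := nsmulAddMonoidHom (α := G) e with hf
  have h1 : Nat.card f.ker * Nat.card f.range = Fintype.card G := by
    rw [← AddSubgroup.index_ker, AddSubgroup.card_mul_index, Nat.card_eq_fintype_card]
  have h2 : AddMonoid.exponent G ∣ Nat.card f.range * e := by
    apply AddMonoid.exponent_dvd_of_forall_nsmul_eq_zero
    intro g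
    have h3 : Nat.card f.range • (⟨f g, ⟨g, rfl⟩⟩ : f.range) = 0 := card_nsmul_eq_zero'
    have h4 : Nat.card f.range • f g = 0 := by
      have := congrArg Subtype.val h3
      simpa using this
    rw [mul_nsmul, ← nsmul_left_comm] 
    exact h4
  have h5 : AddMonoid.exponent G ≤ Nat.card f.range * e :=
    Nat.le_of_dvd (Nat.mul_pos Nat.card_pos he) h2
  have h6 : Nat.card f.ker * AddMonoid.exponent G ≤ Fintype.card G * e := by
    calc Nat.card f.ker * AddMonoid.exponent G ≤ Nat.card f.ker * (Nat.card f.range * e) :=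
          Nat.mul_le_mul_left _ h5
      _ = _ := by rw [← mul_assoc, h1]
  exact_mod_cast h6

/-- the elements of small order -/
theorem sum_small (hSB : T_SB) (T : Finset G) (m : ℕ) (hT : Tile3 T m) (hm : 20000 ≤ m)
    (E B : ℝ) (hB0 : 0 ≤ B) (hB : E / AddMonoid.exponent G ≤ B) :
    ∑ g, (if (addOrderOf g : ℝ) ≤ E then (r2 T g : ℝ) else 0) ≤
      (AddMonoid.exponent G).divisors.card * ((2 * m + 1) ^ 2 * B + 9 * m) := by
  set n := AddMonoid.exponent G with hn
  have hnpos : 0 < n := by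
    rw [hn, AddMonoid.exponent_pos]
    exact AddMonoid.ExponentExists.of_finite
  have hN : (0 : ℝ) < Fintype.card G := by exact_mod_cast Fintype.card_pos
  have hnR : (0 : ℝ) < n := by exact_mod_cast hnpos
  have h1 : ∀ e ∈ n.divisors.filter (fun e : ℕ => (e : ℝ) ≤ E),
      ∑ h with h ∈ (nsmulAddMonoidHom (α := G) e).ker, (r2 T h : ℝ) ≤
        (2 * m + 1) ^ 2 * B + 9 * m := by
    intro e he
    rw [Finset.mem_filter, Nat.mem_divisors] at he
    have he0 : 0 < e := Nat.pos_of_dvd_of_pos he.1.1 hnpos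
    have h5 := hSB G T m hT hm (nsmulAddMonoidHom (α := G) e).ker
    refine le_trans (le_of_eq ?_) (h5.trans ?_)
    · congr!
    have h2 := torsion_card (G := G) e he0
    rw [← hn] at h2
    have h3 : (Nat.card (nsmulAddMonoidHom (α := G) e).ker : ℝ) / Fintype.card G ≤ B := by
      rw [div_le_iff₀ hN]
      have h4 : (Nat.card (nsmulAddMonoidHom (α := G) e).ker : ℝ) * n ≤
          B * Fintype.card G * n := by
        calc (Nat.card (nsmulAddMonoidHom (α := G) e).ker : ℝ) * n ≤ Fintype.card G * e := h2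
          _ ≤ Fintype.card G * E := by
              gcongr
              exact he.2
          _ = Fintype.card G * (E / n) * n := by field_simp
          _ ≤ Fintype.card G * B * n := by gcongr
          _ = _ := by ring
      exact le_of_mul_le_mul_right h4 hnR
    rw [mul_div_assoc]
    gcongr
  calc ∑ g, (if (addOrderOf g : ℝ) ≤ E then (r2 T g : ℝ) else 0)
      ≤ ∑ g, ∑ e ∈ n.divisors.filter (fun e : ℕ => (e : ℝ) ≤ E),
          (if g ∈ (nsmulAddMonoidHom (α := G) e).ker then (r2 T g : ℝ) else 0) := by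
        refine Finset.sum_le_sum fun g _ => ?_
        split_ifs with hg
        · have h2 : addOrderOf g ∈ n.divisors.filter (fun e : ℕ => (e : ℝ) ≤ E) := by
            rw [Finset.mem_filter, Nat.mem_divisors]
            exact ⟨⟨AddMonoid.addOrder_dvd_exponent g, hnpos.ne'⟩, hg⟩
          have h3 : g ∈ (nsmulAddMonoidHom (α := G) (addOrderOf g)).ker := by
            rw [AddMonoidHom.mem_ker]
            exact addOrderOf_nsmul_eq_zero g
          have h4 := Finset.single_le_sum (f := fun e =>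
            (if g ∈ (nsmulAddMonoidHom (α := G) e).ker then (r2 T g : ℝ) else 0))
            (fun e _ => by positivity) h2
          rw [if_pos h3] at h4
          exact h4
        · exact Finset.sum_nonneg fun e _ => by positivity
    _ = ∑ e ∈ n.divisors.filter (fun e : ℕ => (e : ℝ) ≤ E),
          ∑ h with h ∈ (nsmulAddMonoidHom (α := G) e).ker, (r2 T h : ℝ) := by
        rw [Finset.sum_comm]
        refine Finset.sum_congr rfl fun e _ => ?_
        rw [Finset.sum_filter]
    _ ≤ ∑ e ∈ n.divisors.filter (fun e : ℕ => (e : ℝ) ≤ E), ((2 * m + 1) ^ 2 * B + 9 * m) :=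
        Finset.sum_le_sum h1
    _ = (#(n.divisors.filter (fun e : ℕ => (e : ℝ) ≤ E)) : ℝ) * ((2 * m + 1) ^ 2 * B + 9 * m) := by
        rw [Finset.sum_const, nsmul_eq_mul]
    _ ≤ _ := by
        gcongr
        exact Finset.filter_subset _ _

/-- splitting of the total sum -/
theorem total_le (hSB : T_SB) (T : Finset G) (m : ℕ) (hT : Tile3 T m) (hm : 20000 ≤ m)
    (E B D : ℝ) (hE : 0 < E) (hB0 : 0 ≤ B) (hB : E / AddMonoid.exponent G ≤ B)
    (hD : ∀ e : ℕ, e ∣ Fintype.card G → (e.divisors.card : ℝ) ≤ D) :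
    ∑ g, (r2 T g : ℝ) * SU T g ≤ Fintype.card (ZMod (Fintype.card G))ˣ *
      ((2 * m + 1) ^ 2 + 2 * (D * ((2 * m + 1) ^ 2 * B + 9 * m)) +
        D * ((2 * m + 1) ^ 2 / Fintype.card G + 9 * m / E) * (2 * m + 1) ^ 2) := by
  set u : ℝ := ((Fintype.card (ZMod (Fintype.card G))ˣ : ℕ) : ℝ) with hu
  have hu0 : 0 ≤ u := by positivity
  have hN : (0 : ℝ) < Fintype.card G := by exact_mod_cast Fintype.card_pos
  have hD0 : 0 ≤ D := (by positivity : (0 : ℝ) ≤ ((1 : ℕ).divisors.card : ℝ)).trans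
    (hD 1 (one_dvd _))
  set W : ℝ := D * ((2 * m + 1) ^ 2 / Fintype.card G + 9 * m / E) with hW
  have hW0 : 0 ≤ W := by positivity
  have h0 : (r2 T 0 : ℝ) ≤ 2 * m + 1 := by
    have := r2_zero_le T
    rw [hT.card] at this
    exact_mod_cast this
  have hpt : ∀ g ∈ (univ : Finset G).erase 0, (r2 T g : ℝ) * SU T g ≤
      u * (2 * (if (addOrderOf g : ℝ) ≤ E then (r2 T g : ℝ) else 0) + W * r2 T g) := by
    intro g hg
    have hg0 : g ≠ 0 := Finset.ne_of_mem_erase hg
    split_ifs with h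
    · calc (r2 T g : ℝ) * SU T g ≤ r2 T g * (2 * u) := by
            gcongr
            exact SU_le_two T m hT g hg0
        _ ≤ _ := by nlinarith [mul_nonneg hW0 (Nat.cast_nonneg (r2 T g) : (0 : ℝ) ≤ r2 T g)]
    · push Not at h
      have h1 := SU_le hSB T m hT hm g
      have h2 : SU T g ≤ u * W := by
        refine h1.trans ?_
        rw [hW]
        have h3 : 9 * (m : ℝ) / addOrderOf g ≤ 9 * m / E := by
          gcongr
        have h4 := hD (addOrderOf g) addOrderOf_dvd_card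
        gcongr
      calc (r2 T g : ℝ) * SU T g ≤ r2 T g * (u * W) := by gcongr
        _ = _ := by ring
  have hsum := Finset.sum_le_sum hpt
  rw [← Finset.add_sum_erase univ _ (Finset.mem_univ (0 : G)), SU_zero]
  have h1 : ∑ g ∈ (univ : Finset G).erase 0, u *
      (2 * (if (addOrderOf g : ℝ) ≤ E then (r2 T g : ℝ) else 0) + W * r2 T g) ≤
      u * (2 * (D * ((2 * m + 1) ^ 2 * B + 9 * m)) + W * (2 * m + 1) ^ 2) := by
    calc ∑ g ∈ (univ : Finset G).erase 0, u *
        (2 * (if (addOrderOf g : ℝ) ≤ E then (r2 T g : ℝ) else 0) + W * r2 T g) ≤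
        ∑ g, u * (2 * (if (addOrderOf g : ℝ) ≤ E then (r2 T g : ℝ) else 0) + W * r2 T g) := by
          refine Finset.sum_le_sum_of_subset_of_nonneg (Finset.erase_subset _ _) ?_
          intro g _ _
          positivity
      _ = u * (2 * ∑ g, (if (addOrderOf g : ℝ) ≤ E then (r2 T g : ℝ) else 0) +
            W * ∑ g, (r2 T g : ℝ)) := by
          rw [Finset.mul_sum, Finset.mul_sum, ← Finset.sum_add_distrib, Finset.mul_sum]
      _ ≤ _ := by
          have h2 := sum_small hSB T m hT hm E B hB0 hB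
          have h3 := hD _ (AddGroup.exponent_dvd_card (G := G))
          have h4 : ∑ g, (r2 T g : ℝ) = (2 * m + 1) ^ 2 := by
            rw [sum_r2, hT.card]; push_cast; ring
          rw [h4]
          gcongr
          refine h2.trans ?_
          gcongr
  have h5 : (r2 T 0 : ℝ) * (u * r2 T 0) ≤ u * (2 * m + 1) ^ 2 := by
    have h6 : (r2 T 0 : ℝ) * r2 T 0 ≤ (2 * m + 1) * (2 * m + 1) := by
      gcongr
    nlinarith
  linarith

end

/-- (EX) the exponent of the group. -/
theorem ex (hMA : T_MA) (hSB : T_SB) : T_EX := by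
  intro δ₀ hδ₀
  obtain ⟨δ, hδ, hδ1, hδδ⟩ : ∃ δ : ℝ, 0 < δ ∧ δ ≤ 1 ∧ δ ≤ δ₀ :=
    ⟨min δ₀ 1, lt_min hδ₀ one_pos, min_le_right _ _, min_le_left _ _⟩
  obtain ⟨m₁, hm₁⟩ := hMA 1 one_pos
  obtain ⟨k, hk⟩ := exists_nat_ge (12 / δ)
  have hk12 : (12 : ℝ) ≤ k := by
    refine le_trans ?_ hk
    rw [le_div_iff₀ hδ]
    nlinarith
  have hk0 : k ≠ 0 := by
    rintro rfl
    norm_num at hk12
  obtain ⟨C, hC, hdiv⟩ := Pool.Agent.H30.Vino.card_divisors_pow_le k
  have hC1 : (1 : ℝ) ≤ C := by exact_mod_cast hC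
  have htend := (tendsto_rpow_atTop (y := δ / 4) (by positivity)).comp tendsto_natCast_atTop_atTop
  obtain ⟨m₂, hm₂⟩ := Filter.eventually_atTop.mp (htend.eventually_gt_atTop (1000 * (C : ℝ)))
  refine ⟨max m₁ (max 20000 m₂), ?_⟩
  intro m hm G _ _ T hT
  have hm1 : m₁ ≤ m := (le_max_left _ _).trans hm
  have hm20 : 20000 ≤ m := (le_max_left _ _).trans ((le_max_right _ _).trans hm)
  have hm2 : m₂ ≤ m := (le_max_right _ _).trans ((le_max_right _ _).trans hm)
  by_contra hcon
  push Not at hcon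
  have hy : 1000 * (C : ℝ) < (m : ℝ) ^ (δ / 4) := hm₂ m hm2
  have hx : (20000 : ℝ) ≤ m := by exact_mod_cast hm20
  have hx0 : (0 : ℝ) < m := by linarith
  have hx1 : (1 : ℝ) ≤ m := by linarith
  set x : ℝ := (m : ℝ) with hxdef
  set y : ℝ := x ^ (δ / 4) with hydef
  have hy0 : 0 < y := by positivity
  have hyy : y * y = x ^ (δ / 2) := by
    rw [hydef, ← Real.rpow_add hx0]; congr 1; ring
  have hyx : y * y ≤ x := by
    rw [hyy]
    calc x ^ (δ / 2) ≤ x ^ (1 : ℝ) := Real.rpow_le_rpow_of_exponent_le hx1 (by linarith)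
      _ = x := Real.rpow_one x
  have hexp : x * (y * y) * (y * y) ≤ AddMonoid.exponent G := by
    refine le_trans ?_ hcon
    calc x * (y * y) * (y * y) = x ^ (1 + δ) := by
          rw [hyy, mul_assoc, ← Real.rpow_add hx0]
          nth_rewrite 1 [← Real.rpow_one x]
          rw [← Real.rpow_add hx0]
          congr 1; ring
      _ ≤ x ^ (1 + δ₀) := Real.rpow_le_rpow_of_exponent_le hx1 (by linarith)
  have hN : (0 : ℝ) < Fintype.card G := by exact_mod_cast Fintype.card_pos
  have hcard : 3 * (Fintype.card G : ℝ) = (2 * x + 1) * (2 * x ^ 2 + 2 * x + 3) := by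
    rw [hxdef]; exact_mod_cast hT.cardG
  have hNle : (Fintype.card G : ℝ) ≤ 4 * x ^ 3 := by nlinarith [sq_nonneg x, hx]
  have hNge : (2 * x + 1) ^ 2 / Fintype.card G ≤ 3 / x := by
    rw [div_le_div_iff₀ hN hx0, hcard]
    nlinarith
  have hD : ∀ e : ℕ, e ∣ Fintype.card G → (e.divisors.card : ℝ) ≤ 4 * C * y := by
    intro e he
    have he0 : 0 < e := Nat.pos_of_dvd_of_pos he Fintype.card_pos
    have h1 : ((e.divisors.card : ℕ) : ℝ) ^ k ≤ C * e := by exact_mod_cast hdiv e he0
    have h2 : (e : ℝ) ≤ 4 * x ^ 3 := by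
      refine le_trans ?_ hNle
      exact_mod_cast Nat.le_of_dvd Fintype.card_pos he
    have h3 : (4 * C * y) ^ k ≥ 4 * C * x ^ 3 := by
      rw [mul_pow]
      have h4 : (4 * (C : ℝ)) ^ k ≥ 4 * C := le_self_pow₀ (by linarith) hk0
      have h5 : y ^ k ≥ x ^ 3 := by
        rw [hydef, ← Real.rpow_natCast, ← Real.rpow_mul hx0.le, ← Real.rpow_natCast x 3]
        apply Real.rpow_le_rpow_of_exponent_le hx1
        have h6 : 12 / δ * δ = 12 := by field_simp
        have h7 : 12 / δ * δ ≤ k * δ := by gcongr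
        push_cast
        linarith
      have h8 : 0 ≤ x ^ 3 := by positivity
      calc 4 * C * x ^ 3 ≤ (4 * (C : ℝ)) ^ k * x ^ 3 := by gcongr
        _ ≤ (4 * (C : ℝ)) ^ k * y ^ k := by gcongr
    have h9 : ((e.divisors.card : ℕ) : ℝ) ^ k ≤ (4 * C * y) ^ k := by
      calc ((e.divisors.card : ℕ) : ℝ) ^ k ≤ C * e := h1
        _ ≤ C * (4 * x ^ 3) := by gcongr
        _ = 4 * C * x ^ 3 := by ring
        _ ≤ _ := h3
    exact le_of_pow_le_pow_left₀ hk0 (by positivity) h9
  have hexp0 : (0 : ℝ) < AddMonoid.exponent G := lt_of_lt_of_le (by positivity) hexp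
  have hB : x * (y * y) / AddMonoid.exponent G ≤ 1 / (y * y) := by
    rw [div_le_div_iff₀ hexp0 (by positivity)]
    linarith
  have htot := total_le hSB T m hT hm20 (x * (y * y)) (1 / (y * y)) (4 * C * y)
    (by positivity) (by positivity) hB hD
  have hma := hm₁ m hm1 G T hT ⊤
  set u : ℝ := ((Fintype.card (ZMod (Fintype.card G))ˣ : ℕ) : ℝ) with hu
  have hu0 : 0 < u := by
    rw [hu]
    exact_mod_cast Fintype.card_pos
  have hcardtop : (Nat.card (⊤ : Subgroup (ZMod (Fintype.card G))ˣ) : ℝ) = u := by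
    rw [Subgroup.card_top, Nat.card_eq_fintype_card]
  have hsum : ∑ t with t ∈ (⊤ : Subgroup (ZMod (Fintype.card G))ˣ),
      ∑ g, (r2 T g : ℝ) * r2 T ((t : ZMod (Fintype.card G)).val • g) =
      ∑ g, (r2 T g : ℝ) * SU T g := by
    simp only [Subgroup.mem_top, Finset.filter_true]
    rw [Finset.sum_comm]
    refine Finset.sum_congr rfl fun g _ => ?_
    rw [SU, Finset.mul_sum]
  rw [hcardtop, hsum, ← hxdef] at hma
  rw [← hxdef] at htot
  have hfin : u * (5 * x ^ 2) ≤ u * ((2 * x + 1) ^ 2 +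
      2 * (4 * C * y * ((2 * x + 1) ^ 2 * (1 / (y * y)) + 9 * x)) +
      4 * C * y * ((2 * x + 1) ^ 2 / Fintype.card G + 9 * x / (x * (y * y))) *
        (2 * x + 1) ^ 2) := by
    refine le_trans (le_of_eq ?_) (hma.trans htot)
    ring
  have hfin2 := le_of_mul_le_mul_left hfin hu0
  have hsq : (2 * x + 1) ^ 2 ≤ 17 / 4 * x ^ 2 := by nlinarith
  have h1 : 9 * x / (x * (y * y)) = 9 / (y * y) := by field_simp
  rw [h1] at hfin2
  have hC0 : (0 : ℝ) ≤ C := by positivity
  have h2 : 5 * x ^ 2 ≤ 17 / 4 * x ^ 2 +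
      2 * (4 * C * y * (17 / 4 * x ^ 2 * (1 / (y * y)) + 9 * x)) +
      4 * C * y * (3 / x + 9 / (y * y)) * (17 / 4 * x ^ 2) := by
    refine hfin2.trans ?_
    gcongr
  have h3 : 17 / 4 * x ^ 2 +
      2 * (4 * C * y * (17 / 4 * x ^ 2 * (1 / (y * y)) + 9 * x)) +
      4 * C * y * (3 / x + 9 / (y * y)) * (17 / 4 * x ^ 2) =
      17 / 4 * x ^ 2 + 187 * C * (x ^ 2 / y) + 123 * C * (x * y) := by
    field_simp
    ring
  rw [h3] at h2
  have h4 : x * y ≤ x ^ 2 / y := by
    rw [le_div_iff₀ hy0]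
    nlinarith
  have h5 : 5 * x ^ 2 ≤ 17 / 4 * x ^ 2 + 310 * C * (x ^ 2 / y) := by nlinarith
  have h6 : x ^ 2 / y * y = x ^ 2 := by field_simp
  have h7 : 0 < x ^ 2 / y := by positivity
  nlinarith

end Pool.Agent.H41.GW
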