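import Pool.Agent.H41.GW.DI

set_option autoImplicit false

open Finset
open scoped Classical

namespace Pool.Agent.H41.GW

open Pool.Agent.H23.GW

variable {G : Type} [AddCommGroup G] [Fintype G]

/-- (NT) three does not divide the order. -/
theorem nt : T_NT := by
  intro G _ _ T m hT hm h3
  haveI : Fact (Nat.Prime 3) := ⟨Nat.prime_three⟩
  have h3' : 3 ∣ Fintype.card (AddChar G ℂ) := by rwa [AddChar.card_eq]
  obtain ⟨χ, hχ⟩ := exists_prime_addOrderOf_dvd_card 3 h3'
  have h3χ : 3 • χ = 0 := by rw [← hχ]; exact addOrderOf_nsmul_eq_zero χ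
  have hχ0 : χ ≠ 0 := by
    rintro rfl
    simp at hχ
  have hcube : ∀ x : G, χ x ^ 3 = 1 := by
    intro x
    rw [← AddChar.nsmul_apply, h3χ, AddChar.zero_apply]
  have hre : ∀ x : G, χ x ≠ 1 → (χ x).re = -1 / 2 := by
    intro x hx
    have h1 := hcube x
    have h2 : (χ x - 1) * (χ x ^ 2 + χ x + 1) = 0 := by linear_combination h1
    have h3 : χ x ^ 2 + χ x + 1 = 0 := by
      rcases mul_eq_zero.mp h2 with h | h
      · exact absurd (sub_eq_zero.mp h) hx
      · exact h
    have h4 : (starRingEnd ℂ) (χ x) = χ x ^ 2 := by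
      have h5 : (starRingEnd ℂ) (χ x) * χ x = 1 := by
        rw [← AddChar.map_neg_eq_conj, ← AddChar.map_add_eq_mul, neg_add_cancel,
          AddChar.map_zero_eq_one]
      have h6 : χ x ≠ 0 := right_ne_zero_of_mul_eq_one h5
      apply mul_right_cancel₀ h6
      rw [h5]
      linear_combination -h1
    have h7 : χ x + (starRingEnd ℂ) (χ x) = -1 := by
      rw [h4]; linear_combination h3
    rw [Complex.add_conj] at h7
    have h8 : ((2 * (χ x).re : ℝ) : ℂ) = ((-1 : ℝ) : ℂ) := by rw [h7]; norm_num
    have h9 := Complex.ofReal_injective h8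
    linarith
  -- the number of elements with nontrivial value is even
  set S : Finset G := T.filter (fun x => χ x ≠ 1) with hS
  have hSeven : Even #S := by
    have h1 : ∑ x ∈ S, (1 : ZMod 2) = 0 := by
      refine Finset.sum_involution (fun x _ => -x) (fun _ _ => by decide) ?_ ?_ (fun _ _ => by simp)
      · intro x hx _ hneg
        rw [hS, mem_filter] at hx
        apply hx.2
        have h2 : χ x * χ x = 1 := by
          nth_rewrite 1 [← hneg]
          rw [← AddChar.map_add_eq_mul, neg_add_cancel, AddChar.map_zero_eq_one]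
        have h4 := hcube x
        have h5 : χ x ^ 3 = χ x * χ x * χ x := by ring
        rw [h5, h2, one_mul] at h4
        exact h4
      · intro x hx
        rw [hS, mem_filter] at hx ⊢
        refine ⟨hT.neg_mem x hx.1, ?_⟩
        intro h2
        apply hx.2
        have h5 : χ (-x) * χ x = 1 := by
          rw [← AddChar.map_add_eq_mul, neg_add_cancel, AddChar.map_zero_eq_one]
        rw [h2, one_mul] at h5
        exact h5
    rw [Finset.sum_const, nsmul_eq_mul, mul_one] at h1
    exact (ZMod.natCast_eq_zero_iff_even).mp h1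
  obtain ⟨b, hb⟩ := hSeven
  obtain ⟨r, hr⟩ := V_real T hT.neg_mem χ
  have hrv : r = 2 * m + 1 - 3 * b := by
    have h1 : r = (V T χ).re := by rw [hr, Complex.ofReal_re]
    have h2 : (V T χ).re = ∑ x ∈ T, (χ x).re := by
      rw [V, Complex.re_sum]
    have h3 : ∀ x ∈ T, (χ x).re = 1 - (3 / 2 : ℝ) * (if χ x ≠ 1 then 1 else 0) := by
      intro x _
      split_ifs with h
      · rw [hre x h]; norm_num
      · push Not at h
        rw [h]; simp
    rw [h1, h2, Finset.sum_congr rfl h3, Finset.sum_sub_distrib, ← Finset.mul_sum,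
      Finset.sum_boole, Finset.sum_const, nsmul_eq_mul, mul_one, hT.card, ← hS, hb]
    push_cast
    ring
  set v : ℤ := 2 * m + 1 - 3 * b with hv
  have hVv : V T χ = (v : ℂ) := by
    rw [hr, hrv, hv]
    push_cast
    ring
  have hV2 : V T (2 • χ) = (v : ℂ) := by
    have h1 : 2 • χ = -χ := by
      have h2 : 2 • χ + χ = 0 := by rw [← h3χ]; abel
      exact eq_neg_of_add_eq_zero_left h2
    rw [h1, ← hVv]
    unfold V
    refine Finset.sum_nbij' (fun x => -x) (fun x => -x) hT.neg_mem hT.neg_mem (by simp)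
      (by simp) ?_
    intro x _
    rw [AddChar.neg_apply]
  have hV3 : V T (3 • χ) = 2 * m + 1 := by
    rw [h3χ, V]
    simp only [AddChar.zero_apply, Finset.sum_const, nsmul_eq_mul, mul_one, hT.card]
    push_cast
    ring
  have heq := hT.char χ hχ0
  rw [hVv, hV2, hV3] at heq
  have heqZ : v ^ 3 + 3 * v * v + 2 * (2 * m + 1) = 6 * m * v := by exact_mod_cast heq
  have hfac : (3 * v - 2) * (54 * m - 9 * v ^ 2 - 33 * v - 22) = 98 := by
    linear_combination (-27 : ℤ) * heqZ
  have hdvd : (3 * v - 2) ∣ 98 := ⟨_, hfac.symm⟩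
  have hle : |3 * v - 2| ≤ 98 := by
    have := Int.le_of_dvd (by norm_num) ((abs_dvd _ _).mpr hdvd)
    exact this
  rw [abs_le] at hle
  have hv1 : -32 ≤ v := by omega
  have hv2 : v ≤ 33 := by omega
  have hm' : (20000 : ℤ) ≤ m := by exact_mod_cast hm
  interval_cases v <;> omega

end Pool.Agent.H41.GW
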