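import Pool.Agent.H55.GW.Targets3
import Pool.Agent.H50.GW.Rk

/-!
# Board wq_modules, module TL: a base adapted to a chain of separations
-/

set_option autoImplicit false

namespace Pool.Agent.H41.GW

open Pool.Agent.H55.GW Pool.Agent.H50.GW Set

theorem basis_ncard {Q : Matroid ℕ} (hE : Q.E.Finite) {B X : Set ℕ} (h : Q.IsBasis B X) :
    B.ncard = rk Q X := by
  have h1 : ((B.ncard : ℕ) : ℕ∞) = ((rk Q X : ℕ) : ℕ∞) := by
    rw [coe_rk hE, (hE.subset h.indep.subset_ground).cast_ncard_eq]
    exact h.eRk_eq_encard.symm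
  exact_mod_cast h1

theorem base_ncard {Q : Matroid ℕ} (hE : Q.E.Finite) {B : Set ℕ} (h : Q.IsBase B) :
    B.ncard = rk Q Q.E :=
  basis_ncard hE h.isBasis_ground

theorem indep_ncard_le {Q : Matroid ℕ} (hE : Q.E.Finite) {I X : Set ℕ} (h : Q.Indep I)
    (hIX : I ⊆ X) : I.ncard ≤ rk Q X := by
  have h1 : ((I.ncard : ℕ) : ℕ∞) ≤ ((rk Q X : ℕ) : ℕ∞) := by
    rw [coe_rk hE, (hE.subset h.subset_ground).cast_ncard_eq]
    exact h.encard_le_eRk_of_subset hIX
  exact_mod_cast h1

/-- a spanning set of the size of a base is a base -/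
theorem base_of_spanning {Q : Matroid ℕ} (hE : Q.E.Finite) {S B : Set ℕ} (hS : Q.Spanning S)
    (hB : Q.IsBase B) (hc : S.ncard ≤ B.ncard) : Q.IsBase S := by
  obtain ⟨B0, hB0, hsub⟩ := hS.exists_isBase_subset
  have h1 : B0.ncard = B.ncard := by rw [base_ncard hE hB0, base_ncard hE hB]
  have h2 : B0 = S := Set.eq_of_subset_of_ncard_le hsub (by omega)
    (hE.subset hS.subset_ground)
  rw [← h2]
  exact hB0

/-- exchanging between two disjoint sets -/
theorem exch {Q : Matroid ℕ} (hE : Q.E.Finite) {P1 P2 : Set ℕ} (h1 : P1 ⊆ Q.E) (h2 : P2 ⊆ Q.E)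
    (hd : Disjoint P1 P2) : ∃ B I J : Set ℕ, Q.IsBase B ∧ I ⊆ P2 ∧ Disjoint I B ∧ J ⊆ B ∧
    J ⊆ P1 ∧ I.ncard = J.ncard ∧ Q.IsBase ((B \ J) ∪ I) ∧
    rk Q P1 + rk Q P2 = rk Q (P1 ∪ P2) + I.ncard := by
  classical
  have h12 : P1 ∪ P2 ⊆ Q.E := union_subset h1 h2
  obtain ⟨B1, hB1⟩ := Q.exists_isBasis P1 h1
  obtain ⟨B', hB', hB1B'⟩ := hB1.indep.subset_isBasis_of_subset
    (hB1.subset.trans (subset_union_left (t := P2))) h12
  have hB'P1 : B' ∩ P1 = B1 := by
    apply Set.Subset.antisymm
    · intro x hx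
      by_contra hxB
      have := hB1.insert_dep ⟨hx.2, hxB⟩
      exact this.not_indep (hB'.indep.subset (insert_subset hx.1 hB1B'))
    · exact fun x hx => ⟨hB1B' hx, hB1.subset hx⟩
  have hB2i : Q.Indep (B' ∩ P2) := hB'.indep.subset inter_subset_left
  obtain ⟨B2, hB2, hB2B⟩ := hB2i.subset_isBasis_of_subset inter_subset_right h2
  -- the basis of `P1 ∪ P2` containing `B2`
  have hsub : B2 ∪ B' ⊆ P1 ∪ P2 := union_subset (hB2.subset.trans subset_union_right) hB'.subset
  obtain ⟨B'', hB''0, hB2B''⟩ := hB2.indep.subset_isBasis_of_subset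
    (subset_union_left (t := B')) (hsub.trans h12)
  have hB''P : Q.IsBasis B'' (P1 ∪ P2) := by
    refine hB''0.isBasis_of_closure_eq_closure (hB''0.subset.trans hsub) ?_ h12
    apply Set.Subset.antisymm
    · exact Q.closure_subset_closure hsub
    · rw [← hB'.closure_eq_closure]
      exact Q.closure_subset_closure subset_union_right
  set I := B2 \ B' with hI
  set J := B1 \ B'' with hJ
  have hB'fin : B'.Finite := hE.subset hB'.indep.subset_ground
  have hB''fin : B''.Finite := hE.subset hB''P.indep.subset_ground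
  have hB1fin : B1.Finite := hE.subset hB1.indep.subset_ground
  have hB2fin : B2.Finite := hE.subset hB2.indep.subset_ground
  have hB''eq : B'' = (B' \ J) ∪ I := by
    ext x
    simp only [mem_union, mem_sdiff, hI, hJ]
    constructor
    · intro hx
      rcases hB''0.subset hx with h | h
      · by_cases hx' : x ∈ B'
        · exact Or.inl ⟨hx', fun h' => h'.2 hx⟩
        · exact Or.inr ⟨h, hx'⟩
      · exact Or.inl ⟨h, fun h' => h'.2 hx⟩
    · rintro (⟨hx, hx'⟩ | ⟨hx, hx'⟩)
      · by_contra hn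
        rcases hB'.subset hx with h | h
        · have : x ∈ B1 := by rw [← hB'P1]; exact ⟨hx, h⟩
          exact hx' ⟨this, hn⟩
        · exact hn (hB2B'' (hB2B ⟨hx, h⟩))
      · exact hB2B'' hx
  have hJB' : J ⊆ B' := sdiff_subset.trans hB1B'
  have hIdis : Disjoint (B' \ J) I := by
    rw [Set.disjoint_left]
    rintro x ⟨hx, _⟩ ⟨_, hx'⟩
    exact hx' hx
  have hcard1 : B''.ncard = B'.ncard := by
    rw [basis_ncard hE hB''P, basis_ncard hE hB']
  have hcard2 : B''.ncard = (B' \ J).ncard + I.ncard := by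
    rw [hB''eq, Set.ncard_union_eq hIdis (hB'fin.subset sdiff_subset)
      (hB2fin.subset sdiff_subset)]
  have hcard3 : (B' \ J).ncard + J.ncard = B'.ncard :=
    Set.ncard_sdiff_add_ncard_of_subset hJB' hB'fin
  have hIJ : I.ncard = J.ncard := by omega
  -- ranks
  have hI' : I = B2 \ (B' ∩ P2) := by
    ext x
    simp only [hI, mem_sdiff, mem_inter_iff]
    constructor
    · rintro ⟨a, b⟩
      exact ⟨a, fun h => b h.1⟩
    · rintro ⟨a, b⟩
      exact ⟨a, fun h => b ⟨h, hB2.subset a⟩⟩
  have hcard4 : I.ncard + (B' ∩ P2).ncard = B2.ncard := by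
    rw [hI']
    exact Set.ncard_sdiff_add_ncard_of_subset hB2B hB2fin
  have hcard5 : B1.ncard + (B' ∩ P2).ncard = B'.ncard := by
    rw [← hB'P1, ← Set.ncard_union_eq _ (hB'fin.subset inter_subset_left)
      (hB'fin.subset inter_subset_left), ← Set.inter_union_distrib_left,
      Set.inter_eq_left.2 hB'.subset]
    exact hd.mono inter_subset_right inter_subset_right
  -- extend to a base
  obtain ⟨B, hB, hB'B⟩ := hB'.indep.exists_isBase_superset
  have hJP1 : J ⊆ P1 := sdiff_subset.trans hB1.subset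
  have hIP2 : I ⊆ P2 := sdiff_subset.trans hB2.subset
  have hBfin : B.Finite := hE.subset hB.subset_ground
  have hIB : Disjoint I B := by
    rw [Set.disjoint_left]
    rintro x ⟨hx2, hx'⟩ hxB
    have hxE : x ∈ P1 ∪ P2 := Or.inr (hB2.subset hx2)
    have := hB'.insert_dep ⟨hxE, hx'⟩
    exact this.not_indep (hB.indep.subset (insert_subset hxB hB'B))
  refine ⟨B, I, J, hB, hIP2, hIB, hJB'.trans hB'B, hJP1, hIJ, ?_, ?_⟩
  · apply base_of_spanning hE _ hB
    · have h3 : (B \ J ∪ I).ncard = (B \ J).ncard + I.ncard :=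
        Set.ncard_union_eq (hIB.symm.mono_left sdiff_subset) (hBfin.subset sdiff_subset)
          (hB2fin.subset sdiff_subset)
      have h4 : (B \ J).ncard + J.ncard = B.ncard :=
        Set.ncard_sdiff_add_ncard_of_subset (hJB'.trans hB'B) hBfin
      omega
    · have hSE : (B \ J) ∪ I ⊆ Q.E :=
        union_subset (sdiff_subset.trans hB.subset_ground) (hIP2.trans h2)
      have hcl : B'' ⊆ (B \ J) ∪ I := by
        rw [hB''eq]
        exact union_subset_union_left _ (sdiff_subset_sdiff_left hB'B)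
      have hJcl : J ⊆ Q.closure ((B \ J) ∪ I) := by
        refine Set.Subset.trans ?_ (Q.closure_subset_closure hcl)
        rw [hB''P.closure_eq_closure]
        exact (hJP1.trans subset_union_left).trans (Q.subset_closure _ h12)
      have hBcl : B ⊆ Q.closure ((B \ J) ∪ I) := by
        intro x hx
        by_cases hxJ : x ∈ J
        · exact hJcl hxJ
        · exact Q.subset_closure _ hSE (Or.inl ⟨hx, hxJ⟩)
      have h5 := Q.closure_subset_closure hBcl
      rw [Q.closure_closure, hB.closure_eq] at h5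
      rw [Matroid.spanning_iff_ground_subset_closure hSE]
      exact h5
  · rw [← basis_ncard hE hB1, ← basis_ncard hE hB2, ← basis_ncard hE hB']
    omega

theorem contract_base {M : Matroid ℕ} {C BC B : Set ℕ} (hC : C ⊆ M.E) (hBC : M.IsBasis BC C)
    (hB : (M.contract C).IsBase B) : M.IsBase (B ∪ BC) := by
  have h1 := (hBC.contract_indep_iff).1 hB.indep
  have h2 := (Matroid.contract_spanning_iff (M := M) (C := C) (X := B) hC).1 hB.spanning
  have hBE : B ⊆ M.E := hB.subset_ground.trans (by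
    rw [Matroid.contract_ground]
    exact sdiff_subset)
  have h3 : B ∪ BC ⊆ M.E := union_subset hBE hBC.indep.subset_ground
  have h4 : M.Spanning (B ∪ BC) := by
    rw [Matroid.spanning_iff_ground_subset_closure h3]
    have h5 := h2.1.closure_eq
    rw [← h5]
    have h6 : B ∪ C ⊆ M.closure (B ∪ BC) := by
      apply union_subset
      · exact subset_union_left.trans (M.subset_closure _ h3)
      · refine (hBC.subset_closure).trans (M.closure_subset_closure subset_union_right)
    have h7 := M.closure_subset_closure h6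
    rwa [M.closure_closure] at h7
  exact Matroid.Indep.isBase_of_spanning h1.1 h4

theorem tl (hTLA : T_TLA) : T_TL := by
  classical
  intro M N k X hE hX hdec hlink
  have hanti : ∀ i ≤ N, X N ⊆ X i := by
    intro i hi
    obtain ⟨d, rfl⟩ := Nat.exists_eq_add_of_le hi
    clear hi hX hlink
    induction d with
    | zero => exact subset_rfl
    | succ d ih =>
      have h1 : X (i + (d + 1)) ⊆ X (i + d) := hdec (i + d) (by omega)
      exact h1.trans (ih fun j hj => hdec j (by omega))
  have hanti0 : ∀ i ≤ N, X i ⊆ X 0 := by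
    intro i
    induction i with
    | zero => intro _; exact subset_rfl
    | succ d ih =>
      intro hi
      exact (hdec d (by omega)).trans (ih (by omega))
  set P1 := X N with hP1
  set P2 := M.E \ X 0 with hP2
  have hP1E : P1 ⊆ M.E := (hX N le_rfl).1
  have hP2E : P2 ⊆ M.E := sdiff_subset
  have hd : Disjoint P1 P2 := by
    rw [Set.disjoint_left]
    rintro x hx ⟨_, hx'⟩
    exact hx' (hanti0 N le_rfl hx)
  obtain ⟨C, hC, hk⟩ := hTLA M P1 P2 k hE hP1E hP2E hd (by
    intro Z hZE hPZ hdZ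
    apply hlink Z hPZ
    intro x hx
    by_contra hx0
    exact Set.disjoint_left.1 hdZ ⟨hZE hx, hx0⟩ hx)
  have hCE : C ⊆ M.E := hC.trans sdiff_subset
  have hCP : Disjoint C (P1 ∪ P2) := by
    rw [Set.disjoint_left]
    intro x hx
    exact (hC hx).2
  set Q := M.contract C with hQ
  have hQE : Q.E.Finite := hE.subset (by
    rw [hQ, Matroid.contract_ground]
    exact sdiff_subset)
  have h1Q : P1 ⊆ Q.E := by
    rw [hQ, Matroid.contract_ground]
    exact fun x hx => ⟨hP1E hx, fun h => Set.disjoint_left.1 hCP h (Or.inl hx)⟩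
  have h2Q : P2 ⊆ Q.E := by
    rw [hQ, Matroid.contract_ground]
    exact fun x hx => ⟨hP2E hx, fun h => Set.disjoint_left.1 hCP h (Or.inr hx)⟩
  have hrs : ∀ Y ⊆ P1 ∪ P2, rk (Q.restrict (P1 ∪ P2)) Y = rk Q Y := by
    intro Y hY
    unfold rk
    rw [Matroid.restrict_eRk_eq Q hY]
  obtain ⟨B0, I, J, hB0, hIP2, hIB0, hJB0, hJP1, hIJ, hB1, hrk⟩ := exch hQE h1Q h2Q hd
  have hlI : k ≤ I.ncard := by
    have h1 : lam (Q.restrict (P1 ∪ P2)) P1 = I.ncard := by
      unfold lam
      rw [Matroid.restrict_ground_eq, hrs _ subset_union_left, hrs _ sdiff_subset,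
        hrs _ subset_rfl]
      have h2 : (P1 ∪ P2) \ P1 = P2 := by
        rw [Set.union_sdiff_left]
        exact hd.symm.sdiff_eq_left
      rw [h2]
      omega
    rwa [h1] at hk
  obtain ⟨BC, hBC⟩ := M.exists_isBasis C hCE
  have hBCC := hBC.subset
  set B := B0 ∪ BC with hBdef
  have hB : M.IsBase B := contract_base hCE hBC hB0
  have hJC : ∀ x ∈ J, x ∉ BC := fun x hx hx' =>
    Set.disjoint_left.1 hCP (hBCC hx') (Or.inl (hJP1 hx))
  have hIC : ∀ x ∈ I, x ∉ BC := fun x hx hx' =>
    Set.disjoint_left.1 hCP (hBCC hx') (Or.inr (hIP2 hx))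
  have hB' : M.IsBase ((B \ J) ∪ I) := by
    have h1 := contract_base hCE hBC hB1
    have h2 : (B0 \ J ∪ I) ∪ BC = (B \ J) ∪ I := by
      ext x
      simp only [hBdef, mem_union, mem_sdiff]
      constructor
      · rintro ((⟨a, b⟩ | h) | h)
        · exact Or.inl ⟨Or.inl a, b⟩
        · exact Or.inr h
        · exact Or.inl ⟨Or.inr h, fun h' => hJC x h' h⟩
      · rintro (⟨a | a, b⟩ | h)
        · exact Or.inl (Or.inl ⟨a, b⟩)
        · exact Or.inr a
        · exact Or.inl (Or.inr h)
    rwa [h2] at h1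
  have hIB : Disjoint I B := by
    rw [Set.disjoint_left]
    rintro x hx (h | h)
    · exact Set.disjoint_left.1 hIB0 hx h
    · exact hIC x hx h
  have hBfin : B.Finite := hE.subset hB.subset_ground
  have hIfin : I.Finite := hE.subset (hIP2.trans hP2E)
  -- rank computation
  have hcomp : ∀ i ≤ N, rk M (X i) = (B ∩ X i).ncard ∧ I.ncard = k := by
    intro i hi
    obtain ⟨hXE, hXk⟩ := hX i hi
    have h1 : (B ∩ X i).ncard ≤ rk M (X i) :=
      indep_ncard_le hE (hB.indep.subset inter_subset_left) inter_subset_right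
    have h2 : ((B \ X i) ∪ I).ncard ≤ rk M (M.E \ X i) := by
      apply indep_ncard_le hE (hB'.indep.subset _)
      · apply union_subset
        · exact fun x hx => ⟨hB.subset_ground hx.1, hx.2⟩
        · exact fun x hx => ⟨(hIP2 hx).1, fun h => (hIP2 hx).2 (hanti0 i hi h)⟩
      · apply union_subset_union_left
        exact fun x hx => ⟨hx.1, fun h => hx.2 (hanti i hi (hJP1 h))⟩
    have h3 : ((B \ X i) ∪ I).ncard = (B \ X i).ncard + I.ncard :=
      Set.ncard_union_eq (hIB.symm.mono_left sdiff_subset) (hBfin.subset sdiff_subset) hIfin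
    have h4 : (B ∩ X i).ncard + (B \ X i).ncard = B.ncard := Set.ncard_inter_add_ncard_sdiff_eq_ncard B (X i) hBfin
    have h5 := base_ncard hE hB
    have h6 := lam_add hE hXE
    omega
  have hIk : I.ncard = k := (hcomp 0 (Nat.zero_le _)).2
  refine ⟨B, I, J, hB, hIP2, hIB, ?_, hIk, by omega, hB', ?_⟩
  · exact fun x hx => ⟨Or.inl (hJB0 hx), hJP1 hx⟩
  · intro i hi a ha haB b hbB hbX hbase
    have h1 := (hcomp i hi).1
    have h2 : (insert a (B ∩ X i)).ncard ≤ rk M (X i) := by
      apply indep_ncard_le hE (hbase.indep.subset _)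
      · exact insert_subset ha inter_subset_right
      · apply insert_subset_insert
        exact fun x hx => ⟨hx.1, fun h => hbX (h ▸ hx.2)⟩
    rw [Set.ncard_insert_of_notMem (fun h => haB h.1) (hBfin.subset inter_subset_left)] at h2
    omega

end Pool.Agent.H41.GW
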