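import Pool.Agent.H55.GW.Targets3

/-!
# Board wq_modules, module WQS: sequences of labelled decompositions are good
-/

set_option autoImplicit false

namespace Pool.Agent.H41.GW

open Pool.Agent.H55.GW

theorem row_union {M : Matroid ℕ} {D1 D2 D A1 A2 A1' A2' : Set ℕ} (hdis : Disjoint D1 D2)
    (hD : D1 ∪ D2 = D) (hDE : D ⊆ M.E) (hA1' : A1' ⊆ D1) (hA2 : A2 ⊆ D2)
    (h1 : row M D1 A1 = row M D1 A1') (h2 : row M D2 A2 = row M D2 A2') :
    row M D (A1 ∪ A2) ⊆ row M D (A1' ∪ A2') := by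
  rintro U ⟨hU, hb⟩
  have hD1 : D1 ⊆ D := hD ▸ Set.subset_union_left
  have hD2 : D2 ⊆ D := hD ▸ Set.subset_union_right
  have hU1 : U ⊆ M.E \ D1 := hU.trans (Set.sdiff_subset_sdiff_right hD1)
  have hU2 : U ⊆ M.E \ D2 := hU.trans (Set.sdiff_subset_sdiff_right hD2)
  have hA2E : A2 ⊆ M.E \ D1 := fun x hx =>
    ⟨hDE (hD2 (hA2 hx)), fun h => Set.disjoint_left.1 hdis h (hA2 hx)⟩
  have hA1E : A1' ⊆ M.E \ D2 := fun x hx =>
    ⟨hDE (hD1 (hA1' hx)), fun h => Set.disjoint_left.1 hdis (hA1' hx) h⟩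
  have h3 : A2 ∪ U ∈ row M D1 A1 := by
    refine ⟨Set.union_subset hA2E hU1, ?_⟩
    rw [← Set.union_assoc]
    exact hb
  rw [h1] at h3
  have h4 : A1' ∪ U ∈ row M D2 A2 := by
    refine ⟨Set.union_subset hA1E hU2, ?_⟩
    have h5 := h3.2
    have e : A2 ∪ (A1' ∪ U) = A1' ∪ (A2 ∪ U) := by
      ext x
      simp only [Set.mem_union]
      tauto
    rw [e]
    exact h5
  rw [h2] at h4
  refine ⟨hU, ?_⟩
  have h5 := h4.2
  have e : A1' ∪ A2' ∪ U = A2' ∪ (A1' ∪ U) := by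
    ext x
    simp only [Set.mem_union]
    tauto
  rw [e]
  exact h5

theorem row_union' {M : Matroid ℕ} {D1 D2 D A1 A2 A1' A2' : Set ℕ} (hdis : Disjoint D1 D2)
    (hD : D1 ∪ D2 = D) (hDE : D ⊆ M.E) (hA1 : A1 ⊆ D1) (hA1' : A1' ⊆ D1) (hA2 : A2 ⊆ D2)
    (hA2' : A2' ⊆ D2)
    (h1 : row M D1 A1 = row M D1 A1') (h2 : row M D2 A2 = row M D2 A2') :
    row M D (A1 ∪ A2) = row M D (A1' ∪ A2') :=
  Set.Subset.antisymm (row_union hdis hD hDE hA1' hA2 h1 h2)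
    (row_union hdis hD hDE hA1 hA2' h1.symm h2.symm)

open Classical in
/-- the table of a node with children `D1, D2` -/
noncomputable def tau (ρ : Set ℕ → Set ℕ → ℕ) (D1 D2 D : Set ℕ) (x y : ℕ) : ℕ :=
  if h : ∃ A : Set ℕ × Set ℕ, A.1 ⊆ D1 ∧ A.2 ⊆ D2 ∧ ρ D1 A.1 = x ∧ ρ D2 A.2 = y then
    ρ D (h.choose.1 ∪ h.choose.2) else 0

theorem tau_spec {C N : ℕ} {M : Matroid ℕ} {𝒟 : Set (Set ℕ)} {ρ : Set ℕ → Set ℕ → ℕ}
    {t : Set ℕ → ℕ} (hL : Labd C N M 𝒟 ρ t) {D1 D2 D : Set ℕ} (hD1 : D1 ∈ 𝒟) (hD2 : D2 ∈ 𝒟)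
    (hD : D ∈ 𝒟) (hDE : D ⊆ M.E) (hdis : Disjoint D1 D2) (hun : D1 ∪ D2 = D) {A1 A2 : Set ℕ}
    (hA1 : A1 ⊆ D1) (hA2 : A2 ⊆ D2) : tau ρ D1 D2 D (ρ D1 A1) (ρ D2 A2) = ρ D (A1 ∪ A2) := by
  classical
  have h : ∃ A : Set ℕ × Set ℕ, A.1 ⊆ D1 ∧ A.2 ⊆ D2 ∧ ρ D1 A.1 = ρ D1 A1 ∧ ρ D2 A.2 = ρ D2 A2 :=
    ⟨(A1, A2), hA1, hA2, rfl, rfl⟩
  unfold tau
  rw [dif_pos h]
  obtain ⟨h1, h2, h3, h4⟩ := h.choose_spec
  have e1 : row M D1 h.choose.1 = row M D1 A1 := (hL.2.2.1 D1 hD1 _ h1 _ hA1).1 h3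
  have e2 : row M D2 h.choose.2 = row M D2 A2 := (hL.2.2.1 D2 hD2 _ h2 _ hA2).1 h4
  refine (hL.2.2.1 D hD _ ?_ _ ?_).2 (row_union' hdis hun hDE h1 hA1 h2 hA2 e1 e2)
  · rw [← hun]; exact Set.union_subset_union h1 h2
  · rw [← hun]; exact Set.union_subset_union hA1 hA2

/-- truncation -/
def fin (C x : ℕ) : Fin (C + 1) := ⟨min x C, by omega⟩

theorem fin_inj {C x y : ℕ} (hx : x ≤ C) (hy : y ≤ C) (h : fin C x = fin C y) : x = y := by
  have h1 : min x C = min y C := congrArg Fin.val h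
  rwa [min_eq_left hx, min_eq_left hy] at h1

/-- one node is contained in another one -/
def Le (ρ : ℕ → Set ℕ → Set ℕ → ℕ) (i : ℕ) (D : Set ℕ) (j : ℕ) (D' : Set ℕ) : Prop :=
  ∃ (ι : ℕ → ℕ) (Z : Set ℕ), Set.InjOn ι D ∧ ι '' D ⊆ D' ∧ Z ⊆ D' ∧ Disjoint (ι '' D) Z ∧
    ∀ A ⊆ D, ρ j D' (ι '' A ∪ Z) = ρ i D A

theorem Le.refl (ρ : ℕ → Set ℕ → Set ℕ → ℕ) (i : ℕ) (D : Set ℕ) : Le ρ i D i D :=
  ⟨id, ∅, Set.injOn_id _, by rw [Set.image_id], Set.empty_subset _, Set.disjoint_empty _,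
    fun A _ => by rw [Set.image_id, Set.union_empty]⟩

theorem Le.trans {ρ : ℕ → Set ℕ → Set ℕ → ℕ} {i j l : ℕ} {D D' D'' : Set ℕ} (h : Le ρ i D j D')
    (h' : Le ρ j D' l D'') : Le ρ i D l D'' := by
  obtain ⟨ι1, Z1, a1, a2, a3, a4, a5⟩ := h
  obtain ⟨ι2, Z2, b1, b2, b3, b4, b5⟩ := h'
  have him : ∀ A : Set ℕ, (ι2 ∘ ι1) '' A = ι2 '' (ι1 '' A) := fun A => Set.image_comp _ _ _
  refine ⟨ι2 ∘ ι1, ι2 '' Z1 ∪ Z2, ?_, ?_, ?_, ?_, ?_⟩
  · intro x hx y hy hxy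
    exact a1 hx hy (b1 (a2 ⟨x, hx, rfl⟩) (a2 ⟨y, hy, rfl⟩) hxy)
  · rw [him]
    exact (Set.image_mono a2).trans b2
  · exact Set.union_subset ((Set.image_mono a3).trans b2) b3
  · rw [him, Set.disjoint_union_right]
    constructor
    · rw [Set.disjoint_left]
      rintro _ ⟨x, hx, rfl⟩ ⟨y, hy, hxy⟩
      have := b1 (a3 hy) (a2 hx) hxy
      subst this
      exact Set.disjoint_left.1 a4 hx hy
    · exact b4.mono_left (Set.image_mono a2)
  · intro A hA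
    rw [him, ← Set.union_assoc, ← Set.image_union, b5 _ (Set.union_subset
      ((Set.image_mono hA).trans a2) a3)]
    exact a5 A hA

/-- the leaves -/
theorem Le.leaf {ρ : ℕ → Set ℕ → Set ℕ → ℕ} {i j e e' : ℕ} (h1 : ρ i {e} ∅ = ρ j {e'} ∅)
    (h2 : ρ i {e} {e} = ρ j {e'} {e'}) : Le ρ i {e} j {e'} := by
  refine ⟨fun _ => e', ∅, Set.injOn_singleton _ _, ?_, Set.empty_subset _, Set.disjoint_empty _,
    ?_⟩
  · rw [Set.image_singleton]
  · intro A hA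
    rw [Set.union_empty]
    rcases Set.subset_singleton_iff_eq.1 hA with rfl | rfl
    · rw [Set.image_empty, h1]
    · rw [Set.image_singleton, h2]

/-- inner nodes -/
theorem Le.node {ρ : ℕ → Set ℕ → Set ℕ → ℕ} {i j : ℕ} {D1 D2 D D1' D2' D' : Set ℕ}
    (hun : D1 ∪ D2 = D) (hun' : D1' ∪ D2' = D') (hdis' : Disjoint D1' D2')
    (hdis : Disjoint D1 D2)
    (hsp : ∀ A1 ⊆ D1, ∀ A2 ⊆ D2, tau (ρ i) D1 D2 D (ρ i D1 A1) (ρ i D2 A2) = ρ i D (A1 ∪ A2))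
    (hsp' : ∀ A1 ⊆ D1', ∀ A2 ⊆ D2', tau (ρ j) D1' D2' D' (ρ j D1' A1) (ρ j D2' A2) =
      ρ j D' (A1 ∪ A2))
    (htau : ∀ A1 ⊆ D1, ∀ A2 ⊆ D2, tau (ρ i) D1 D2 D (ρ i D1 A1) (ρ i D2 A2) =
      tau (ρ j) D1' D2' D' (ρ i D1 A1) (ρ i D2 A2))
    (h1 : Le ρ i D1 j D1') (h2 : Le ρ i D2 j D2') : Le ρ i D j D' := by
  classical
  obtain ⟨ι1, Z1, a1, a2, a3, a4, a5⟩ := h1
  obtain ⟨ι2, Z2, b1, b2, b3, b4, b5⟩ := h2
  let ι : ℕ → ℕ := fun x => if x ∈ D1 then ι1 x else ι2 x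
  have hi1 : ∀ A ⊆ D1, ι '' A = ι1 '' A := by
    intro A hA
    refine Set.image_congr fun x hx => ?_
    exact if_pos (hA hx)
  have hi2 : ∀ A ⊆ D2, ι '' A = ι2 '' A := by
    intro A hA
    refine Set.image_congr fun x hx => ?_
    exact if_neg fun h => Set.disjoint_left.1 hdis h (hA hx)
  have hcr : ∀ x ∈ D1, ∀ y ∈ D2, ι1 x ≠ ι2 y := by
    intro x hx y hy hxy
    have h3 : ι1 x ∈ D1' := a2 ⟨x, hx, rfl⟩
    have h4 : ι2 y ∈ D2' := b2 ⟨y, hy, rfl⟩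
    rw [hxy] at h3
    exact Set.disjoint_left.1 hdis' h3 h4
  refine ⟨ι, Z1 ∪ Z2, ?_, ?_, ?_, ?_, ?_⟩
  · intro x hx y hy hxy
    rw [← hun] at hx hy
    rcases hx with hx | hx <;> rcases hy with hy | hy
    · have e1 : ι x = ι1 x := if_pos hx
      have e2 : ι y = ι1 y := if_pos hy
      rw [e1, e2] at hxy
      exact a1 hx hy hxy
    · have e1 : ι x = ι1 x := if_pos hx
      have e2 : ι y = ι2 y := if_neg fun h => Set.disjoint_left.1 hdis h hy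
      rw [e1, e2] at hxy
      exact absurd hxy (hcr x hx y hy)
    · have e1 : ι x = ι2 x := if_neg fun h => Set.disjoint_left.1 hdis h hx
      have e2 : ι y = ι1 y := if_pos hy
      rw [e1, e2] at hxy
      exact absurd hxy.symm (hcr y hy x hx)
    · have e1 : ι x = ι2 x := if_neg fun h => Set.disjoint_left.1 hdis h hx
      have e2 : ι y = ι2 y := if_neg fun h => Set.disjoint_left.1 hdis h hy
      rw [e1, e2] at hxy
      exact b1 hx hy hxy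
  · rw [← hun, ← hun', Set.image_union, hi1 D1 subset_rfl, hi2 D2 subset_rfl]
    exact Set.union_subset_union a2 b2
  · rw [← hun']
    exact Set.union_subset_union a3 b3
  · rw [← hun, Set.image_union, hi1 D1 subset_rfl, hi2 D2 subset_rfl, Set.disjoint_union_left,
      Set.disjoint_union_right, Set.disjoint_union_right]
    exact ⟨⟨a4, hdis'.mono a2 b3⟩, ⟨(hdis'.mono a3 b2).symm, b4⟩⟩
  · intro A hA
    have hAu : A = (A ∩ D1) ∪ (A ∩ D2) := by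
      rw [← Set.inter_union_distrib_left, hun]
      exact (Set.inter_eq_left.2 hA).symm
    have e1 : ι '' A ∪ (Z1 ∪ Z2) = (ι1 '' (A ∩ D1) ∪ Z1) ∪ (ι2 '' (A ∩ D2) ∪ Z2) := by
      conv_lhs => rw [hAu, Set.image_union, hi1 _ Set.inter_subset_right,
        hi2 _ Set.inter_subset_right]
      ext x
      simp only [Set.mem_union]
      tauto
    have hs1 : ι1 '' (A ∩ D1) ∪ Z1 ⊆ D1' :=
      Set.union_subset ((Set.image_mono Set.inter_subset_right).trans a2) a3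
    have hs2 : ι2 '' (A ∩ D2) ∪ Z2 ⊆ D2' :=
      Set.union_subset ((Set.image_mono Set.inter_subset_right).trans b2) b3
    rw [e1, ← hsp' _ hs1 _ hs2, a5 _ Set.inter_subset_right, b5 _ Set.inter_subset_right,
      ← htau _ Set.inter_subset_right _ Set.inter_subset_right,
      hsp _ Set.inter_subset_right _ Set.inter_subset_right, ← hAu]

/-- bases in terms of the rows of the ground set -/
theorem base_iff {C N : ℕ} {M : Matroid ℕ} {𝒟 : Set (Set ℕ)} {ρ : Set ℕ → Set ℕ → ℕ}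
    {t : Set ℕ → ℕ} (hL : Labd C N M 𝒟 ρ t) (hE : M.E ∈ 𝒟) {B : Set ℕ} (hB : M.IsBase B)
    {A : Set ℕ} (hA : A ⊆ M.E) : M.IsBase A ↔ ρ M.E A = ρ M.E B := by
  rw [hL.2.2.1 M.E hE A hA B hB.subset_ground]
  constructor
  · intro h
    ext U
    constructor
    · rintro ⟨hU, -⟩
      have hU0 : U = ∅ := by
        rw [Set.sdiff_self] at hU
        exact Set.subset_empty_iff.1 hU
      refine ⟨hU, ?_⟩
      rw [hU0, Set.union_empty]
      exact hB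
    · rintro ⟨hU, -⟩
      have hU0 : U = ∅ := by
        rw [Set.sdiff_self] at hU
        exact Set.subset_empty_iff.1 hU
      refine ⟨hU, ?_⟩
      rw [hU0, Set.union_empty]
      exact h
  · intro h
    have h1 : (∅ : Set ℕ) ∈ row M M.E B := ⟨Set.empty_subset _, by rwa [Set.union_empty]⟩
    rw [← h] at h1
    have h2 := h1.2
    rwa [Set.union_empty] at h2

theorem wqs (h : T_RS) : T_WQS := by
  classical
  intro C N k M 𝒟 ρ t hyp
  have hfin := fun i => (hyp i).1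
  have hdec := fun i => (hyp i).2.1
  have hL := fun i => (hyp i).2.2
  let Nd := Σ i : ℕ, {D : Set ℕ // D ∈ 𝒟 i}
  have hc : ∀ (i : ℕ) (D : {D : Set ℕ // D ∈ 𝒟 i}), ∃ c : Bool → {D : Set ℕ // D ∈ 𝒟 i},
      (¬ ∃ e, D.1 = {e}) → Disjoint (c true).1 (c false).1 ∧ (c true).1 ∪ (c false).1 = D.1 := by
    intro i D
    rcases (hdec i).split D.1 D.2 with h1 | ⟨D1, hD1, D2, hD2, h2, h3⟩
    · exact ⟨fun _ => D, fun h4 => absurd h1 h4⟩
    · exact ⟨fun b => if b then ⟨D1, hD1⟩ else ⟨D2, hD2⟩, fun _ => ⟨h2, h3⟩⟩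
  choose c hc using hc
  choose B hB using fun i => (M i).exists_isBase
  let bb : ℕ → ℕ := fun i => ρ i (M i).E (B i)
  have hbb : ∀ i, bb i ≤ C := fun i => (hL i).2.1 _ (hdec i).top _ (hB i).subset_ground
  let leaf : Nd → Prop := fun n => ∃ e, n.2.1 = {e}
  let ch : Bool → Nd → Nd := fun b n => ⟨n.1, c n.1 n.2 b⟩
  let sz : Nd → ℕ := fun n => n.2.1.ncard
  let lab : Nd → ℕ := fun n => lbl N (M n.1) (t n.1) n.2.1
  let K := ((Fin (C + 1) × Fin (C + 1)) × Fin (C + 1)) ×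
    (Fin (C + 1) → Fin (C + 1) → Fin (C + 1))
  let kd : Nd → K := fun n => (((fin C (ρ n.1 n.2.1 ∅), fin C (ρ n.1 n.2.1 n.2.1)),
    fin C (bb n.1)), fun x y => fin C (tau (ρ n.1) (c n.1 n.2 true).1 (c n.1 n.2 false).1
      n.2.1 x y))
  let le : Nd → Nd → Prop := fun n n' => bb n.1 = bb n'.1 ∧ Le ρ n.1 n.2.1 n'.1 n'.2.1
  -- children
  have hchild : ∀ (i : ℕ) (D : {D : Set ℕ // D ∈ 𝒟 i}), (¬ ∃ e, D.1 = {e}) → ∀ b : Bool,
      (c i D b).1 ⊂ D.1 := by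
    intro i D hD b
    obtain ⟨h1, h2⟩ := hc i D hD
    have hsub : (c i D b).1 ⊆ D.1 := by
      rw [← h2]
      cases b
      · exact Set.subset_union_right
      · exact Set.subset_union_left
    refine ⟨hsub, fun h3 => ?_⟩
    obtain ⟨x, hx⟩ := (hdec i).ne _ (c i D (!b)).2
    have hx2 : x ∈ D.1 := by
      rw [← h2]
      cases b
      · exact Or.inl hx
      · exact Or.inr hx
    have hx3 := h3 hx2
    cases b
    · exact Set.disjoint_left.1 h1 hx hx3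
    · exact Set.disjoint_left.1 h1 hx3 hx
  -- nothing strictly between a node and its child
  have hbetween : ∀ (i : ℕ) (D : {D : Set ℕ // D ∈ 𝒟 i}), (¬ ∃ e, D.1 = {e}) → ∀ b : Bool,
      ∀ P ∈ 𝒟 i, (c i D b).1 ⊂ P → ¬ P ⊂ D.1 := by
    intro i D hD b P hP h1 h2
    obtain ⟨h3, h4⟩ := hc i D hD
    have h3' : Disjoint (c i D b).1 (c i D (!b)).1 := by
      cases b
      · exact h3.symm
      · exact h3
    have h4' : (c i D b).1 ∪ (c i D (!b)).1 = D.1 := by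
      cases b
      · rw [← h4, Set.union_comm]; rfl
      · exact h4
    rcases (hdec i).lam P hP _ (c i D (!b)).2 with h5 | h5 | h5
    · obtain ⟨x, hx⟩ := (hdec i).ne _ (c i D b).2
      exact Set.disjoint_left.1 h3' hx (h5 (h1.1 hx))
    · apply h2.2
      rw [← h4']
      exact Set.union_subset h1.1 h5
    · apply h1.2
      intro x hx
      have h6 := h2.1 hx
      rw [← h4'] at h6
      rcases h6 with h6 | h6
      · exact h6
      · exact absurd h6 (Set.disjoint_left.1 h5 hx)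
  have hsp : ∀ (i : ℕ) (D : {D : Set ℕ // D ∈ 𝒟 i}), (¬ ∃ e, D.1 = {e}) →
      ∀ A1 ⊆ (c i D true).1, ∀ A2 ⊆ (c i D false).1,
        tau (ρ i) (c i D true).1 (c i D false).1 D.1 (ρ i (c i D true).1 A1)
          (ρ i (c i D false).1 A2) = ρ i D.1 (A1 ∪ A2) := by
    intro i D hD A1 hA1 A2 hA2
    obtain ⟨h1, h2⟩ := hc i D hD
    exact tau_spec (hL i) (c i D true).2 (c i D false).2 D.2 ((hdec i).sub _ D.2) h1 h2 hA1 hA2
  -- descendants
  have hdesc : ∀ (kk : ℕ) (e f : Nd), Desc leaf ch lab kk e f →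
      ∃ (i : ℕ) (D D' : {D : Set ℕ // D ∈ 𝒟 i}), e = ⟨i, D⟩ ∧ f = ⟨i, D'⟩ ∧ D'.1 ⊂ D.1 ∧
        ∀ P ∈ 𝒟 i, D'.1 ⊂ P → P ⊂ D.1 → kk < lbl N (M i) (t i) P := by
    intro kk e f hef
    induction hef with
    | one b he =>
      refine ⟨e.1, e.2, c e.1 e.2 b, rfl, rfl, hchild e.1 e.2 he b, ?_⟩
      intro P hP h1 h2
      exact absurd h2 (hbetween e.1 e.2 he b P hP h1)
    | more f b _ hf hlab ih =>
      obtain ⟨i, D, D', rfl, rfl, h1, h2⟩ := ih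
      have h3 := hchild i D' hf b
      refine ⟨i, D, c i D' b, rfl, rfl, h3.trans h1, ?_⟩
      intro P hP h4 h5
      rcases (hdec i).lam P hP D'.1 D'.2 with h6 | h6 | h6
      · rcases h6.eq_or_ssubset with h7 | h7
        · rw [h7]
          exact hlab
        · exact absurd h7 (hbetween i D' hf b P hP h4)
      · rcases h6.eq_or_ssubset with h7 | h7
        · rw [← h7]
          exact hlab
        · exact h2 P hP h7 h5
      · exfalso
        obtain ⟨x, hx⟩ := (hdec i).ne _ (c i D' b).2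
        exact Set.disjoint_left.1 h6 (h4.1 hx) (h3.1 hx)
  have hfinK : Finite K := inferInstance
  obtain ⟨i, j, hij, hbij, ι, Z, h1, h2, h3, h4, h5⟩ := h Nd K hfinK ((k + 1) * (N + 1)) leaf ch sz
    lab kd le (fun e => ⟨rfl, Le.refl ρ _ _⟩)
    (fun e f g hef hfg => ⟨hef.1.trans hfg.1, hef.2.trans hfg.2⟩)
    (by
      intro e
      have h1 := (hdec e.1).le _ e.2.2
      have h2 := (hL e.1).1 _ e.2.2
      simp only [lab, lbl]
      calc lam (M e.1) e.2.1 * (N + 1) + t e.1 e.2.1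
          ≤ k * (N + 1) + N := Nat.add_le_add (Nat.mul_le_mul_right _ h1) h2
        _ < (k + 1) * (N + 1) := by ring_nf; omega)
    (by
      intro e b he
      have h1 := hchild e.1 e.2 he b
      exact Set.ncard_lt_ncard h1 ((hfin e.1).subset ((hdec e.1).sub _ e.2.2)))
    (by
      intro e f he hf hkd
      obtain ⟨x, hx⟩ := he
      obtain ⟨y, hy⟩ := hf
      have hL1 := (hL e.1).2.1 _ e.2.2
      have hL2 := (hL f.1).2.1 _ f.2.2
      have k1 : fin C (ρ e.1 e.2.1 ∅) = fin C (ρ f.1 f.2.1 ∅) :=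
        congrArg (fun z : K => z.1.1.1) hkd
      have k2 : fin C (ρ e.1 e.2.1 e.2.1) = fin C (ρ f.1 f.2.1 f.2.1) :=
        congrArg (fun z : K => z.1.1.2) hkd
      have k3 : fin C (bb e.1) = fin C (bb f.1) := congrArg (fun z : K => z.1.2) hkd
      refine ⟨fin_inj (hbb _) (hbb _) k3, ?_⟩
      have e1 := fin_inj (hL1 _ (Set.empty_subset _)) (hL2 _ (Set.empty_subset _)) k1
      have e2 := fin_inj (hL1 _ subset_rfl) (hL2 _ subset_rfl) k2
      rw [hx, hy] at e1 e2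
      rw [hx, hy]
      exact Le.leaf e1 e2)
    (by
      intro e f he hf hkd hle
      have k3 : fin C (bb e.1) = fin C (bb f.1) := congrArg (fun z : K => z.1.2) hkd
      refine ⟨fin_inj (hbb _) (hbb _) k3, ?_⟩
      obtain ⟨d1, u1⟩ := hc e.1 e.2 he
      obtain ⟨d2, u2⟩ := hc f.1 f.2 hf
      have l1 : Le ρ e.1 (c e.1 e.2 true).1 f.1 (c f.1 f.2 true).1 := (hle true).2
      have l2 : Le ρ e.1 (c e.1 e.2 false).1 f.1 (c f.1 f.2 false).1 := (hle false).2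
      refine Le.node u1 u2 d2 d1 (hsp e.1 e.2 he) (hsp f.1 f.2 hf) ?_ l1 l2
      intro A1 hA1 A2 hA2
      have b1 := (hL e.1).2.1 _ (c e.1 e.2 true).2 A1 hA1
      have b2 := (hL e.1).2.1 _ (c e.1 e.2 false).2 A2 hA2
      have h6 := congrArg (fun z : K => z.2 ⟨ρ e.1 (c e.1 e.2 true).1 A1, by omega⟩
        ⟨ρ e.1 (c e.1 e.2 false).1 A2, by omega⟩) hkd
      have hA : A1 ∪ A2 ⊆ e.2.1 := by rw [← u1]; exact Set.union_subset_union hA1 hA2
      obtain ⟨ι1, Z1, -, a2, a3, -, a5⟩ := l1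
      obtain ⟨ι2, Z2, -, b2', b3, -, b5⟩ := l2
      have hs1 : ι1 '' A1 ∪ Z1 ⊆ (c f.1 f.2 true).1 :=
        Set.union_subset ((Set.image_mono hA1).trans a2) a3
      have hs2 : ι2 '' A2 ∪ Z2 ⊆ (c f.1 f.2 false).1 :=
        Set.union_subset ((Set.image_mono hA2).trans b2') b3
      refine fin_inj ?_ ?_ h6
      · show tau (ρ e.1) (c e.1 e.2 true).1 (c e.1 e.2 false).1 e.2.1
          (ρ e.1 (c e.1 e.2 true).1 A1) (ρ e.1 (c e.1 e.2 false).1 A2) ≤ C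
        rw [hsp e.1 e.2 he A1 hA1 A2 hA2]
        exact (hL e.1).2.1 _ e.2.2 _ hA
      · show tau (ρ f.1) (c f.1 f.2 true).1 (c f.1 f.2 false).1 f.2.1
          (ρ e.1 (c e.1 e.2 true).1 A1) (ρ e.1 (c e.1 e.2 false).1 A2) ≤ C
        rw [← a5 A1 hA1, ← b5 A2 hA2, hsp f.1 f.2 hf _ hs1 _ hs2]
        refine (hL f.1).2.1 _ f.2.2 _ ?_
        rw [← u2]
        exact Set.union_subset_union hs1 hs2)
    (by
      intro e f hef hlab
      obtain ⟨i, D, D', rfl, rfl, h1, h2⟩ := hdesc _ e f hef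
      refine ⟨rfl, ?_⟩
      obtain ⟨Z, hZ, hZ2⟩ := (hL i).2.2.2 D'.1 D'.2 D.1 D.2 h1 hlab h2
      refine ⟨id, Z, Set.injOn_id _, ?_, fun x hx => (hZ hx).1, ?_, ?_⟩
      · rw [Set.image_id]
        exact h1.1
      · rw [Set.image_id, Set.disjoint_left]
        intro x hx hx2
        exact (hZ hx2).2 hx
      · intro A hA
        rw [Set.image_id]
        exact hZ2 A hA)
    (fun n => ⟨n, ⟨(M n).E, (hdec n).top⟩⟩)
  have hbij' : bb i = bb j := hbij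
  refine ⟨i, j, hij, ι, Z, h1, h2, h3, h4, ?_⟩
  intro A hA
  have hA2 : ι '' A ∪ Z ⊆ (M j).E := Set.union_subset ((Set.image_mono hA).trans h2) h3
  rw [base_iff (hL i) (hdec i).top (hB i) hA, base_iff (hL j) (hdec j).top (hB j) hA2,
    h5 A hA]
  show ρ i (M i).E A = bb i ↔ ρ i (M i).E A = bb j
  rw [hbij']

end Pool.Agent.H41.GW
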